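import Pool.Agent.L7h3.QX.Stm
import Pool.Agent.L7h3.QD.Ful
import Pool.Agent.L7h3.QD.Den
import Pool.Agent.L7h3.QE.Inf

/-!
# Project QX (helper3): places above two, density, criterion, counting
-/

set_option autoImplicit false
set_option linter.unusedVariables false
set_option linter.unusedSectionVars false

open NumberField IsDedekindDomain

namespace Pool.Agent.L7h3.QX

open scoped Classical
open Pool.Agent.Y699 (PP PS PD qr ep)
open Pool.Agent.L7h3.GX (Gd)
open Pool.Agent.L7h3.QD (HB CoL)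
open Pool.Agent.L7h3.MR
open Pool.Agent.W189.NF (aV eV)
open Pool.Agent.H921R2.TatePole (nm)
open H385 (ZI im1 nrm)

/-! ## Places above two -/

/-- QX-HA2: Hasse's bound for the curves with `a₁ = 0` over finite fields `k` of characteristic two
(the supersingular ones), elementary. Number of `(x, y)` with `y² + a₃ y = f(x)`,
`f = x³ + a₂ x² + a₄ x + a₆`, `a₃ ≠ 0`: it is `q + S`, `S = ∑_x ψ(f(x)/a₃²)`, `ψ` the additive character
`(-1)^Tr` (`y ↦ y² + y` is two-to-one onto the kernel of the trace). `S² = ∑_h ∑_x ψ((f(x+h) - f(x))/a₃²)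
= ∑_h ψ(..) ∑_x ψ(c (x² h + x h²))`, `c = a₃⁻²`; the inner character of `x` is additive, trivial iff
`ch = c² h⁴` (as `ψ(c x² h) = ψ(√(ch) x)`), for at most `4` values of `h`; so `S² ≤ 4 q`. -/
def S_HA2 : Prop := ∀ (k : Type) [Field k] [Fintype k] [CharP k 2] (a₂ a₃ a₄ a₆ : k), a₃ ≠ 0 →
  ((Nat.card {p : k × k // p.2 ^ 2 + a₃ * p.2 = p.1 ^ 3 + a₂ * p.1 ^ 2 + a₄ * p.1 + a₆} : ℤ) -
    Fintype.card k) ^ 2 ≤ 4 * (Fintype.card k : ℤ)

/-- QX-HS2 (from `S_HA2`): the local data of `y² = x³ + δ x` at the places above two. Model `hb_of_nm` in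
`L7h3/QD/Ful.lean`. Good reduction: the reduction `W` of the minimal model has `j = 1728 = 0` in
characteristic two, so `a₁ = 0` (`c₄³ = j Δ`, `c₄ = a₁⁴` in characteristic two; `c₄, Δ` of the minimal
model differ from those of the curve by `u⁴, u¹²`), `Δ = a₃⁴ ≠ 0`. Number of points = number of
solutions + 1 (all solutions are nonsingular, as `Δ ≠ 0`). -/
def S_HS2 : Prop := ∀ (K : Type) [Field K] [NumberField K] (δ : K), δ ≠ 0 →
  ∀ v : HeightOneSpectrum (𝓞 K), (2 : 𝓞 K) ∈ v.asIdeal →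
  HB (aV (Pool.Agent.Y715.Z.q4 δ) v) (eV (Pool.Agent.Y715.Z.q4 δ) v) (nm v)

/-- QX-FUL (from `S_HS2`): the complete `L`-series. Model: `full` in `L7h3/QD/Ful.lean` (only `hB` and
`hfin` change). -/
def S_FUL : Prop := ∀ (K : Type) [Field K] [NumberField K] (δ : K), δ ≠ 0 → CoL δ →
  ∃ L : ℂ → ℂ, DifferentiableOn ℂ L {s | 1 / 2 < s.re} ∧ L 1 ≠ 0 ∧
    ∀ s : ℂ, 3 / 2 < s.re →
      LSeriesSummable ((fun n : ℤ => (n : ℂ)) ∘ (Pool.Agent.Y715.Z.q4 δ).LFunction) s ∧
        L s = (Pool.Agent.Y715.Z.q4 δ).LSeries s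

/-! ## The criterion -/

/-- the weight of a prime -/
def wx (π : ZI) : ZMod 2 := if π.norm % 8 = 5 then 1 else 0

/-- the system with the additional vertex has only the trivial solution -/
def GdX (S : Finset ZI) : Prop := ∀ v : ZI → ZMod 2,
  (∀ π ∈ S, ∑ ρ ∈ S, ep π ρ * (v ρ - v π) - wx π * v π = 0) → ∀ π ∈ S, v π = 0

/-- the class: odd, squarefree, not `± 1` modulo `4` -/
def ClX (D : ZI) : Prop := Squarefree D ∧ D.norm % 2 = 1 ∧ ¬ (4 : ZI) ∣ D - 1 ∧ ¬ (4 : ZI) ∣ D + 1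

/-- good parameters -/
def GoodX (D : ZI) : Prop := ClX D ∧ ∀ d d' : ZI, D = d * d' → (4 : ZI) ∣ d - 1 →
  (∀ π : ZI, Prime π → π ∣ d → ∃ x : ZI, π ∣ x ^ 2 - d') →
  (∀ π : ZI, Prime π → π ∣ d' → ∃ x : ZI, π ∣ x ^ 2 - d) → d = 1

/-- QX-CRX: the class and the good parameters in terms of the primary primes. Models:
`L7h3/QE/Eq.lean`, `good4_iff` in `L7h3/GX/Cond.lean`. `D = im1^k D0` with `D0` primary
(`exists_prim`), `D0 = 1` modulo `4` iff `N(D0) = 1` modulo `8`, `D0 = 3 + 2i` modulo `4` otherwise. For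
`k` odd: `d = 1` modulo `4` iff `d` is primary with `N(d) = 1` modulo `8`; `d = 1_S`-product, and the
conditions on `d`, `d'` say `v = 1_S` is a solution (then `∑ wx π v π = 0` automatically,
by summing all the equations). `k` even: `d ≠ 1` and the other factor `± D0 / d` with norm `5` modulo `8`;
a nonconstant solution or its complement has `∑ wx π v π = 0`. -/
def S_CRX : Prop := ∀ D : ZI,
  (ClX D ↔ ∃ k < 4, ∃ D0 : ZI, D = im1 ^ k * D0 ∧ PS D0 ∧ (k % 2 = 1 ∨ D0.norm % 8 = 5)) ∧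
  (GoodX D ↔ ∃ k < 4, ∃ D0 : ZI, D = im1 ^ k * D0 ∧ PS D0 ∧
    ((k % 2 = 1 ∧ GdX (PD D0)) ∨ (k % 2 = 0 ∧ D0.norm % 8 = 5 ∧ Gd (PD D0))))

/-! ## The density -/

/-- QX-DNX: the density for all squarefree primary `D0`. Port of project GX
(`L7h3/GX/Stm.lean`; `L7h97/G5` for another class): no condition on the norm; one more small vertex
`none` with symbols `ep none π = wx π`: with `S₀' = Option S₀` and the labels of the large primes with
respect to `S₀'`, `GX.S_LA` (for `U = Option S₀`; `GdA` for the graph with the vertex `none` says that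
the solutions with `v none = 0` are zero) and `GX.S_EQ`, `GX.S_BIL`, can be used as they are; `Nd'`:
for `v ≠ 0` on `Option S₀` there is a large `π` with `v none * wx π + ∑ u ∈ S₀, v u * ep u π ≠ 0`. -/
def S_DNX : Prop := Filter.Tendsto
  (fun X : ℕ => ({D : ZI | nrm D ≤ X ∧ PS D ∧ GdX (PD D)}.ncard : ℝ) /
    ({D : ZI | nrm D ≤ X ∧ PS D}.ncard : ℝ)) Filter.atTop (nhds Pool.Agent.Y703.CQ.c2)

/-- QX-CMB (from `S_CRX`, `S_DNX`, `QD.S_DEN8` (proved)): the union over the units (the representation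
`im1^k D0` is unique, the norm does not change). -/
def S_CMB : Prop := Filter.Tendsto
  (fun X : ℕ => ({D : ZI | nrm D ≤ X ∧ GoodX D}.ncard : ℝ) / ({D : ZI | nrm D ≤ X ∧ ClX D}.ncard : ℝ))
  Filter.atTop (nhds Pool.Agent.Y703.CQ.c2)

/-- QX-CT7: counting. The odd elements not `± 1` modulo `4` are `6` of the `16` classes modulo `4`
(`6/16 π X + O(√X)`), those divisible by `π²`, `π` an odd prime (up to units), are at most
`6/16 π X / N(π)² + O(√X/N(π))` (with a trivial bound `C X / N(π)²` for large `π`), and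
`∑ 1/N(π)² ≤ 0.125` (`= 0.119..`: `2/25 + 1/81 + 2/169 + 2/289 + ...`). The elements that `4` does not
divide: `15/16 π X + O(√X)`. So the quotient is at least `(6/15)(7/8) = 0.35` for large `X`. -/
def S_CT7 : Prop := ∃ X₀ : ℕ, ∀ X : ℕ, X₀ ≤ X →
  (7 / 20 : ℝ) * ({D : ZI | nrm D ≤ X ∧ D ≠ 0 ∧ ¬ (4 : ZI) ∣ D}.ncard : ℝ) ≤
    ({D : ZI | nrm D ≤ X ∧ ClX D}.ncard : ℝ)

/-! ## Primes for the towers -/

/-- QX-LFX: infinitely many primes for the towers. `π₁` a prime divisor of `D0` of prime norm such that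
the conjugate of `π₁` does not divide `D0` (equivalently: no other prime divisor has the same norm). There
are infinitely many prime numbers `q = 7` modulo `8` such that `ρ = -q` is a nonresidue modulo `π₁` and
a residue modulo the other prime divisors. Port of `inf_leaf` in `L7h3/QE/Inf.lean` (there
`π₁.norm % 8 = 5`; only `p % 4 = 1` is needed). -/
def S_LFX : Prop := ∀ (D0 π₁ : ZI), PS D0 → π₁ ∈ PD D0 → (nrm π₁).Prime →
  (∀ π ∈ PD D0, π ≠ π₁ → π.norm ≠ π₁.norm) → {ρ : ZI | Pool.Agent.L7h3.QE.Leaf D0 π₁ ρ}.Infinite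

end Pool.Agent.L7h3.QX
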