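import Pool.Agent.L7h3.QD.Fld
import Pool.Agent.L7h3.QE.Tq

/-!
# Towers generated by square roots and fourth roots, without conditions above two
-/

set_option autoImplicit false
set_option linter.unusedSectionVars false

open NumberField IsDedekindDomain

namespace Pool.Agent.L7h3.QX

open scoped Classical
open Pool.Agent.L7h3.MQ
open Pool.Agent.L7h3.MR
open Pool.Agent.L7h3.QD
open Pool.Agent.L7h3.QE (peel low low_card mem_low low_top)

/-- a bijective base change does not change anything -/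
lemma co2_bij {K F : Type} [Field K] [NumberField K] [Field F] [NumberField F] [Algebra K F]
    (h : Function.Bijective (algebraMap K F)) {δ : K} (hδ : δ ≠ 0) (hbase : ∀ (F' : Type) [Field F']
      [NumberField F'] (f : K ≃+* F'), Co2 (f δ)) : Co2 (algebraMap K F δ) :=
  hbase F (RingEquiv.ofBijective _ h)

/-- a square root -/
def GA {K F : Type} [Field K] [Field F] [Algebra K F] (𝒢 : Set K) (t : F) : Prop :=
  ∃ d : K, t ^ 2 = algebraMap K F d ∧ ∀ δ ∈ 𝒢, δ * d ^ 2 ∈ 𝒢

/-- a fourth root -/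
def GB {K F : Type} [Field K] [Field F] [Algebra K F] (𝒢 : Set K) (t : F) : Prop :=
  ∃ ρ : K, t ^ 4 = algebraMap K F ρ ∧ ∀ δ ∈ 𝒢, δ * ρ ∈ 𝒢

/-- **the induction** -/
theorem tower {K : Type} [Field K] [NumberField K] {𝒢 : Set K} (h0 : ∀ δ ∈ 𝒢, δ ≠ 0)
    (hbase : ∀ (F : Type) [Field F] [NumberField F] (f : K ≃+* F), ∀ δ ∈ 𝒢, Co2 (f δ)) :
    ∀ (n : ℕ) (F : Type) [Field F] [NumberField F] [Algebra K F] (T₂ T₄ : Finset F),
      (T₂ ∪ T₄).card = n →
      (∀ t ∈ T₂, GA 𝒢 t) → (∀ t ∈ T₄, t ^ 2 ∈ T₂ ∧ GB 𝒢 t) → Disjoint T₂ T₄ →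
      IntermediateField.adjoin K ((T₂ ∪ T₄ : Finset F) : Set F) = ⊤ →
      ∀ δ ∈ 𝒢, Co2 (algebraMap K F δ) := by
  intro n
  induction n with
  | zero =>
    intro F _ _ _ T₂ T₄ hT _ _ _ htop δ hδ
    rw [Finset.card_eq_zero] at hT
    rw [hT, Finset.coe_empty, IntermediateField.adjoin_empty] at htop
    have hbij : Function.Bijective (algebraMap K F) := by
      refine ⟨(algebraMap K F).injective, fun x => ?_⟩
      have hx : x ∈ (⊤ : IntermediateField K F) := trivial
      rw [← htop, IntermediateField.mem_bot] at hx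
      exact hx
    exact hbase F (RingEquiv.ofBijective _ hbij) δ hδ
  | succ n ih =>
    intro F _ _ _ T₂ T₄ hT hA hB hdis htop
    -- the element that is removed
    obtain ⟨x, hx, hx4⟩ : ∃ x ∈ T₂ ∪ T₄, x ∈ T₂ → T₄ = ∅ := by
      by_cases h4 : T₄ = ∅
      · have h1 : (T₂ ∪ T₄).Nonempty := by rw [← Finset.card_pos, hT]; omega
        obtain ⟨x, hx⟩ := h1
        exact ⟨x, hx, fun _ => h4⟩
      · obtain ⟨x, hx⟩ := Finset.nonempty_iff_ne_empty.2 h4
        exact ⟨x, Finset.mem_union_right _ hx, fun h => absurd hx (Finset.disjoint_left.1 hdis h)⟩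
    have hcard : ((T₂ ∪ T₄).erase x).card = n := by
      rw [Finset.card_erase_of_mem hx, hT]; rfl
    have hun : (T₂ ∪ T₄).erase x = T₂.erase x ∪ T₄.erase x := Finset.erase_union_distrib _ _ _
    have hB' : ∀ t ∈ T₄.erase x, t ^ 2 ∈ T₂.erase x := by
      intro t ht
      have ht4 := Finset.mem_of_mem_erase ht
      refine Finset.mem_erase.2 ⟨?_, (hB t ht4).1⟩
      intro h
      have h5 := hx4 (by rw [← h]; exact (hB t ht4).1)
      rw [h5] at ht4
      exact Finset.notMem_empty _ ht4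
    have hdis' : Disjoint (T₂.erase x) (T₄.erase x) :=
      Finset.disjoint_of_subset_left (Finset.erase_subset _ _)
        (Finset.disjoint_of_subset_right (Finset.erase_subset _ _) hdis)
    by_cases htop' : IntermediateField.adjoin K (((T₂ ∪ T₄).erase x : Finset F) : Set F) = ⊤
    · rw [hun] at hcard htop'
      exact ih F (T₂.erase x) (T₄.erase x) hcard (fun t ht => hA t (Finset.mem_of_mem_erase ht))
        (fun t ht => ⟨hB' t ht, (hB t (Finset.mem_of_mem_erase ht)).2⟩) hdis' htop'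
    · set M := IntermediateField.adjoin K (((T₂ ∪ T₄).erase x : Finset F) : Set F) with hM
      have hTM : ∀ t ∈ (T₂ ∪ T₄).erase x, t ∈ M := fun t ht =>
        IntermediateField.subset_adjoin K _ (Finset.mem_coe.2 ht)
      have hlow : ∀ d : DecidableEq M, low M ((T₂ ∪ T₄).erase x) =
          @Union.union _ (@Finset.instUnion _ d) (low M (T₂.erase x)) (low M (T₄.erase x)) := by
        intro d
        ext t
        rw [mem_low, Finset.mem_union, mem_low, mem_low, hun, Finset.mem_union]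
      have hAM : ∀ t ∈ low M (T₂.erase x), GA 𝒢 t := by
        intro t ht
        obtain ⟨d, h1, h2⟩ := hA _ (Finset.mem_of_mem_erase (mem_low.1 ht))
        exact ⟨d, Subtype.ext h1, h2⟩
      have hBM : ∀ t ∈ low M (T₄.erase x), t ^ 2 ∈ low M (T₂.erase x) ∧ GB 𝒢 t := by
        intro t ht
        refine ⟨mem_low.2 (hB' _ (mem_low.1 ht)), ?_⟩
        obtain ⟨ρ, h1, h2⟩ := (hB _ (Finset.mem_of_mem_erase (mem_low.1 ht))).2
        exact ⟨ρ, Subtype.ext h1, h2⟩
      have hdM : Disjoint (low M (T₂.erase x)) (low M (T₄.erase x)) := by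
        rw [Finset.disjoint_left]
        intro t h1 h2
        exact Finset.disjoint_left.1 hdis' (mem_low.1 h1) (mem_low.1 h2)
      have hG := ih M (low M (T₂.erase x)) (low M (T₄.erase x))
        (by rw [← hlow, low_card hTM, hcard]) hAM hBM hdM (by rw [← hlow]; exact low_top _ hM)
      have hne : ∀ δ ∈ 𝒢, algebraMap K M δ ≠ 0 := fun δ hδ => by
        rw [Ne, map_eq_zero]
        exact h0 δ hδ
      intro δ hδ
      have hfin : algebraMap K F δ = algebraMap M F (algebraMap K M δ) := rfl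
      rw [hfin]
      rcases Finset.mem_union.1 hx with hx2 | hx4'
      · -- a square root
        obtain ⟨d, hx2, hd⟩ := hA x hx2
        obtain ⟨hxM, h2⟩ := peel (T₂ ∪ T₄) hM htop htop' (c := algebraMap K M d) hx2
        have c2 := hG _ (hd δ hδ)
        rw [map_mul, map_pow] at c2
        exact co2_step h2 (θ := x) (d := algebraMap K M d) hx2 hxM (hne δ hδ) (hG δ hδ) c2
      · -- a fourth root
        obtain ⟨h20, ρ, hx4, hρ⟩ := hB x hx4'
        have hx2M : x ^ 2 ∈ M := by
          refine hTM _ ?_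
          rw [hun]
          refine Finset.mem_union_left _ (Finset.mem_erase.2 ⟨?_, h20⟩)
          intro h
          exact Finset.disjoint_left.1 hdis (by rw [← h]; exact h20) hx4'
        obtain ⟨hxM, h2⟩ := peel (T₂ ∪ T₄) hM htop htop' (c := (⟨x ^ 2, hx2M⟩ : M)) rfl
        have c2 := hG _ (hρ δ hδ)
        have e1 : algebraMap K M (δ * ρ) = algebraMap K M δ * (⟨x ^ 2, hx2M⟩ : M) ^ 2 := by
          rw [map_mul]
          congr 1
          apply Subtype.ext
          show algebraMap K F ρ = (x ^ 2) ^ 2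
          rw [← pow_mul, ← hx4]
        rw [e1] at c2
        exact co2_step h2 (θ := x) (d := (⟨x ^ 2, hx2M⟩ : M)) rfl hxM (hne δ hδ) (hG δ hδ) c2

/-- **the tower theorem** -/
theorem tower_all {K : Type} [Field K] [NumberField K] {𝒢 : Set K} (h0 : ∀ δ ∈ 𝒢, δ ≠ 0)
    (hbase : ∀ (F : Type) [Field F] [NumberField F] (f : K ≃+* F), ∀ δ ∈ 𝒢, Co2 (f δ))
    {F : Type} [Field F] [NumberField F] [Algebra K F] (T : Finset F)
    (hT : ∀ t ∈ T, GA 𝒢 t ∨ GB 𝒢 t)
    (htop : IntermediateField.adjoin K (T : Set F) = ⊤) : ∀ δ ∈ 𝒢, Co2 (algebraMap K F δ) := by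
  set A := T.filter (fun t => GA 𝒢 t) with hA
  set B := T.filter (fun t => ¬ GA 𝒢 t) with hB
  set T₂ := A ∪ B.image (fun t => t ^ 2) with hT₂
  have hGA2 : ∀ t ∈ T₂, GA 𝒢 t := by
    intro t ht
    rcases Finset.mem_union.1 ht with h | h
    · exact (Finset.mem_filter.1 h).2
    · obtain ⟨s, hs, rfl⟩ := Finset.mem_image.1 h
      obtain ⟨hs1, hs2⟩ := Finset.mem_filter.1 hs
      obtain ⟨ρ, h1, h2⟩ := (hT s hs1).resolve_left hs2
      refine ⟨ρ, by rw [← h1]; ring, fun δ hδ => ?_⟩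
      have := h2 _ (h2 δ hδ)
      rwa [mul_assoc, ← pow_two] at this
  have hdis : Disjoint T₂ B := by
    rw [Finset.disjoint_left]
    intro t h1 h2
    exact (Finset.mem_filter.1 h2).2 (hGA2 t h1)
  refine tower h0 hbase _ F T₂ B rfl hGA2 ?_ hdis ?_
  · intro t ht
    refine ⟨Finset.mem_union_right _ (Finset.mem_image_of_mem _ ht), ?_⟩
    obtain ⟨hs1, hs2⟩ := Finset.mem_filter.1 ht
    exact (hT t hs1).resolve_left hs2
  · rw [eq_top_iff, ← htop, IntermediateField.adjoin_le_iff]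
    intro t ht
    apply IntermediateField.subset_adjoin
    rw [Finset.mem_coe, Finset.mem_union]
    by_cases h : GA 𝒢 t
    · exact Or.inl (Finset.mem_union_left _ (Finset.mem_filter.2 ⟨Finset.mem_coe.1 ht, h⟩))
    · exact Or.inr (Finset.mem_filter.2 ⟨Finset.mem_coe.1 ht, h⟩)

end Pool.Agent.L7h3.QX
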