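import Pool.Agent.L7h3.QX.Bas
import Pool.Agent.L7h3.QX.Stm2
import Pool.Agent.L7h3.QX.Tow
import Pool.Agent.L7h3.QD.Asm

/-!
# The theorem over Kummer extensions in elementary terms
-/

set_option autoImplicit false
set_option linter.unusedSectionVars false

open NumberField IsDedekindDomain

namespace Pool.Agent.L7h3.QX

open scoped Classical
open Pool.Agent.Y699
open Pool.Agent.L7h3.MQ
open Pool.Agent.L7h3.MR (incl incl_fam incl_em incl_wt inf_primes)
open Pool.Agent.L7h3.GX (Sol Gd nrm_int isCoprime_of_sqf sg_one)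
open Pool.Agent.L7h3.QD (exists_fac Parts Co2 CoL co2_pos co2_neg good_of_gd Da exists_da)
open H385 (ZI RQ im1 nrm)
open Pool.Agent.W164.RC (tc_mul tc_star two2 prim_iff_dvd unit_norm unit_cases Ip Ip_spec)
open Pool.Agent.H304R2.EC.A1 (prim prim_mul prim_cancel prim_one prim_norm_odd prim_star eq_one_of_prim
  norm_def' re_mul' im_mul' eq_of_dvd prim_ne_zero exists_prim)
open Pool.Agent.Y715.Z

/-- the data of `D` and `t` -/
theorem exists_dax {D t : ZI} {k : ℕ} (hk : k % 2 = 1) (hps : PS D) (hg : GdX (PD D))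
    (ht1 : t.norm % 2 = 1)
    (ht : ∀ ρ : ZI, Prime ρ → ρ ∣ t → ρ ∣ D ∨ ∀ x : ZI, ¬ ρ ∣ x ^ 2 - im1 ^ k * D) :
    ∃ (N : ZI) (O : Finset {π : ZI // π ∈ PD N}) (ex : {π : ZI // π ∈ PD N} → ℕ) (k' : ℕ),
      DaX (fam N) Finset.univ O ex k' ∧
      im1 ^ k * (D * t ^ 2) = im1 ^ k' * DE (fam N) Finset.univ ex := by
  have hD := hps.ne
  have ht0 : t ≠ 0 := by
    rintro rfl
    rw [Zsqrtd.norm_zero] at ht1
    exact absurd ht1 (by norm_num)
  set N : ZI := D * t with hNdef
  have hN : N ≠ 0 := mul_ne_zero hD ht0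
  have hDN : D ∣ N := dvd_mul_right _ _
  have hp := fam_PF hN
  obtain ⟨u, f, hu, hf⟩ := exists_fac hN t ht1 (dvd_mul_left _ _)
  set O : Finset {π : ZI // π ∈ PD N} := Finset.univ.map (incl hD hN hDN) with hO
  have hDD : DD (fam N) O = D := by
    unfold DD
    rw [hO, Finset.prod_map]
    exact hps.DD
  have hmemO : ∀ i : {π : ZI // π ∈ PD N}, i.1 ∣ D → i ∈ O := by
    intro i hi
    rw [hO, Finset.mem_map]
    refine ⟨⟨i.1, (mem_PD hD).2 ⟨((mem_PD hN).1 i.2).1, hi⟩⟩, Finset.mem_univ _, ?_⟩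
    exact Subtype.ext rfl
  have hOmem : ∀ i ∈ O, i.1 ∈ PD D := by
    intro i hi
    rw [hO, Finset.mem_map] at hi
    obtain ⟨j, -, rfl⟩ := hi
    exact j.2
  set ex : {π : ZI // π ∈ PD N} → ℕ := fun i => (if i ∈ O then 1 else 0) + 2 * f i with hex
  -- the unit
  obtain ⟨k', hk', hku, hkn⟩ : ∃ k' : ℕ, k' % 2 = 1 ∧ im1 ^ k * u ^ 2 = im1 ^ k' ∧
      ∀ (π x : ZI), π ∣ x ^ 2 - im1 ^ k' * D → ∃ y : ZI, π ∣ y ^ 2 - im1 ^ k * D := by
    have h1 : u ^ 2 = 1 ∨ u ^ 2 = im1 ^ 2 := by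
      rcases unit_cases hu with h | h | h | h <;> rw [h]
      · left; decide
      · right; decide
      · left; decide
      · right; decide
    rcases h1 with h | h
    · exact ⟨k, hk, by rw [h, mul_one], fun π x hx => ⟨x, hx⟩⟩
    · refine ⟨k + 2, by omega, by rw [h, pow_add], fun π x hx => ⟨im1 * x, ?_⟩⟩
      have hi : (im1 : ZI) ^ 2 = -1 := by decide
      have e1 : (im1 * x) ^ 2 - im1 ^ k * D = -(x ^ 2 - im1 ^ (k + 2) * D) := by
        rw [pow_add]
        linear_combination (x ^ 2 - im1 ^ k * D) * hi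
      rw [e1]
      exact (dvd_neg).2 hx
  have H : DaX (fam N) Finset.univ O ex k' := by
    refine ⟨hp, Finset.subset_univ _, hk', ?_, ?_, ?_⟩
    · intro z hz v hv
      set w : ZI → ZMod 2 := fun π => if h : π ∈ PD N then z ⟨π, h⟩ else 0 with hw
      have hwz : ∀ i : {π : ZI // π ∈ PD N}, w i.1 = z i := by
        intro i
        rw [hw]
        simp only [i.2, dif_pos]
      have h1 := hg w (by
        intro π hπ
        obtain ⟨i, hi, rfl⟩ : ∃ i ∈ O, i.1 = π := by
          refine ⟨⟨π, (mem_PD hN).2 ⟨((mem_PD hD).1 hπ).1, ((mem_PD hD).1 hπ).2.trans hDN⟩⟩, ?_, rfl⟩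
          exact hmemO _ ((mem_PD hD).1 hπ).2
        have h2 := hz i hi
        have h3 : ∑ ρ ∈ PD D, ep i.1 ρ * (w ρ - w i.1) = ∑ u ∈ O, em (fam N) u i * (z u + z i) := by
          have h4 : ∑ u ∈ O, em (fam N) u i * (z u + z i) =
              ∑ j : {π : ZI // π ∈ PD D}, ep i.1 j.1 * (w j.1 - w i.1) := by
            rw [hO, Finset.sum_map]
            refine Finset.sum_congr rfl fun j _ => ?_
            have h4 : ∀ a b : ZMod 2, a + b = a - b := by decide
            rw [h4, ← hwz (incl hD hN hDN j), ← hwz i]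
            rfl
          rw [h4]
          exact (Finset.sum_coe_sort (PD D) (fun ρ => ep i.1 ρ * (w ρ - w i.1))).symm
        rw [h3, hwz]
        have h5 : ∀ a b : ZMod 2, a + b = 0 → a - b = 0 := by decide
        exact h5 _ _ h2) v.1 (hOmem v hv)
      rw [← hwz v]
      exact h1
    · intro i hi x hx
      rw [hDD] at hx
      obtain ⟨y, hy⟩ := hkn _ _ hx
      have hiO : i ∉ O := (Finset.mem_sdiff.1 hi).2
      have hiD : ¬ i.1 ∣ D := fun h => hiO (hmemO i h)
      have hiP := ((mem_PD hN).1 i.2).1.pr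
      have h2 := ((mem_PD hN).1 i.2).2
      rcases hiP.dvd_or_dvd h2 with h3 | h3
      · exact absurd h3 hiD
      · rcases ht i.1 hiP h3 with h5 | h5
        · exact absurd h5 hiD
        · exact h5 y hy
    · intro i _
      rw [hex]
      by_cases h : i ∈ O
      · simp only [h, if_true, iff_true]
        omega
      · simp only [h, if_false, iff_false]
        omega
  have hDE : DE (fam N) Finset.univ ex = D * (∏ i, fam N i ^ f i) ^ 2 := by
    have h1 : DE (fam N) Finset.univ ex = (∏ i, fam N i ^ (if i ∈ O then 1 else 0)) *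
        ∏ i, fam N i ^ (2 * f i) := by
      unfold DE
      rw [← Finset.prod_mul_distrib]
      exact Finset.prod_congr rfl fun i _ => by rw [hex, pow_add]
    have h2 : ∏ i, fam N i ^ (if i ∈ O then 1 else 0) = D := by
      rw [← hDD]
      unfold DD
      simp only [pow_ite, pow_one, pow_zero]
      rw [Finset.prod_ite_mem, Finset.univ_inter]
    rw [h1, h2, ← Finset.prod_pow]
    congr 1
    exact Finset.prod_congr rfl fun i _ => by rw [← pow_mul, mul_comm]
  refine ⟨N, O, ex, k', H, ?_⟩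
  rw [hDE, ← hku]
  conv_lhs => rw [hf]
  ring

/-- `D` is divisible by `π` or a nonresidue modulo `π` -/
def NrX (D π : ZI) : Prop := π ∣ D ∨ ∀ x : ZI, ¬ π ∣ x ^ 2 - D

/-- elements all whose prime divisors are compatible are odd -/
lemma odd_of_nr {D t : ZI} (hD : D.norm % 2 = 1) (ht0 : t ≠ 0)
    (ht : ∀ π : ZI, Prime π → π ∣ t → NrX D π) : t.norm % 2 = 1 := by
  by_contra h
  have h2 : t.norm % 2 = 0 := by omega
  -- `1 + i` divides `t`
  have hpi : (⟨1, 1⟩ : ZI) ∣ t := by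
    rw [norm_def'] at h2
    have h3 : (t.re + t.im) % 2 = 0 := by
      rcases Int.even_or_odd t.re with ⟨a, ha⟩ | ⟨a, ha⟩ <;>
        rcases Int.even_or_odd t.im with ⟨b, hb⟩ | ⟨b, hb⟩
      · omega
      · exfalso
        rw [ha, hb] at h2
        ring_nf at h2
        omega
      · exfalso
        rw [ha, hb] at h2
        ring_nf at h2
        omega
      · omega
    refine ⟨⟨(t.re + t.im) / 2, (t.im - t.re) / 2⟩, ?_⟩
    ext
    · simp only [Zsqrtd.re_mul]
      omega
    · simp only [Zsqrtd.im_mul]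
      omega
  have hpr : Prime (⟨1, 1⟩ : ZI) := by
    rw [← irreducible_iff_prime]
    constructor
    · intro hu
      rw [Zsqrtd.isUnit_iff_norm_isUnit] at hu
      exact absurd (Int.isUnit_iff.1 hu) (by decide)
    · intro a b hab
      have h3 := congrArg Zsqrtd.norm hab
      rw [Zsqrtd.norm_mul] at h3
      have h4 : (⟨1, 1⟩ : ZI).norm = 2 := by decide
      rw [h4] at h3
      have ha := GaussianInt.norm_nonneg a
      have hb := GaussianInt.norm_nonneg b
      have h5 : a.norm ∣ 2 := ⟨_, h3⟩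
      have h6 : a.norm ≤ 2 := Int.le_of_dvd (by norm_num) h5
      have h7 : a.norm = 1 ∨ a.norm = 2 := by
        have h8 : a.norm ≠ 0 := by
          intro h0
          rw [h0, zero_mul] at h3
          exact absurd h3 (by norm_num)
        omega
      rcases h7 with h7 | h7
      · left
        rw [Zsqrtd.isUnit_iff_norm_isUnit, h7]
        exact isUnit_one
      · right
        have h8 : b.norm = 1 := by rw [h7] at h3; omega
        rw [Zsqrtd.isUnit_iff_norm_isUnit, h8]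
        exact isUnit_one
  rcases ht _ hpr hpi with h3 | h3
  · obtain ⟨c, hc⟩ := h3
    rw [hc, Zsqrtd.norm_mul] at hD
    have h4 : (⟨1, 1⟩ : ZI).norm = 2 := by decide
    rw [h4] at hD
    omega
  · apply h3 1
    -- `1 + i` divides `1 - D`
    rw [norm_def'] at hD
    have h4 : (D.re + D.im) % 2 = 1 := by
      rcases Int.even_or_odd D.re with ⟨a, ha⟩ | ⟨a, ha⟩ <;>
        rcases Int.even_or_odd D.im with ⟨b, hb⟩ | ⟨b, hb⟩
      · exfalso
        rw [ha, hb] at hD
        ring_nf at hD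
        omega
      · omega
      · omega
      · exfalso
        rw [ha, hb] at hD
        ring_nf at hD
        omega
    refine ⟨⟨(1 - D.re - D.im) / 2, (-D.im - 1 + D.re) / 2⟩, ?_⟩
    ext
    · simp only [Zsqrtd.re_mul, one_pow, Zsqrtd.re_sub, Zsqrtd.re_one]
      omega
    · simp only [Zsqrtd.im_mul, one_pow, Zsqrtd.im_sub, Zsqrtd.im_one]
      omega

/-- **the curves over `ℚ(i)`** -/
theorem base_good (P : Parts) (PX : PartsX) (hC : S_CRX) {D t : ZI} (hg : GoodX D) (ht0 : t ≠ 0)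
    (ht : ∀ π : ZI, Prime π → π ∣ t → NrX D π) {K : Type} [Field K] [NumberField K]
    (e : ZI ≃+* 𝓞 K) : Co2 (em0 e (D * t ^ 2)) := by
  have ht1 := odd_of_nr hg.1.2.1 ht0 ht
  obtain ⟨k, -, D0, hD, hps, h⟩ := (hC D).2.1 hg
  have hi : (im1 : ZI) ^ 2 = -1 := by decide
  rcases h with ⟨hk, hgd⟩ | ⟨hk, h5, hgd⟩
  · obtain ⟨N, O, ex, k', H, he⟩ := exists_dax (t := t) hk hps hgd ht1 (by
      intro ρ hρ hd
      rcases ht ρ hρ hd with h1 | h1
      · left
        rw [hD] at h1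
        exact ((im1_pow_unit k).dvd_mul_left).1 h1
      · right
        intro x hx
        rw [hD] at h1
        exact h1 x hx)
    have e1 : D * t ^ 2 = im1 ^ k' * DE (fam N) Finset.univ ex := by
      rw [← he, hD]; ring
    rw [e1]
    exact co2_x e PX H
  · -- even exponent
    obtain ⟨s, hs, hDs⟩ : ∃ s : ZI, (s = 1 ∨ s = -1) ∧ D = s * D0 := by
      have h4 : k % 4 = 0 ∨ k % 4 = 2 := by omega
      rcases h4 with h4 | h4
      · refine ⟨1, Or.inl rfl, ?_⟩
        rw [hD, unit_pow_mod im1_norm (n := 0) (by rw [h4]), pow_zero]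
      · refine ⟨-1, Or.inr rfl, ?_⟩
        rw [hD, unit_pow_mod im1_norm (n := 2) (by rw [h4]), hi]
    have hss : s * s = 1 := by rcases hs with rfl | rfl <;> ring
    have hG := good_of_gd hps h5 hgd
    obtain ⟨N, O, ex, σ, H, hσ, he⟩ := exists_da (t := t) hG ht1 (by
      intro ρ hρ hd
      rcases ht ρ hρ hd with h1 | h1
      · left
        rw [hDs] at h1
        have h2 := h1.mul_left s
        rwa [← mul_assoc, hss, one_mul] at h2
      · right
        intro x hx
        rcases hs with rfl | rfl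
        · rw [one_mul] at hDs
          rw [hDs] at h1
          exact h1 x hx
        · apply h1 (im1 * x)
          have e1 : (im1 * x) ^ 2 - D = -(x ^ 2 - D0) := by
            rw [hDs]
            linear_combination (x ^ 2) * hi
          rw [e1]
          exact (dvd_neg).2 hx) hs
    have e1 : D * t ^ 2 = σ * DE (fam N) Finset.univ ex := by
      rw [← he, hDs]; ring
    rw [e1]
    rcases hσ with rfl | rfl
    · rw [one_mul]; exact co2_pos e P H
    · rw [neg_one_mul, map_neg]; exact co2_neg e P H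

/-- the data of the extension: `R` the elements whose fourth roots are adjoined -/
structure QuartX (D : ZI) (R : Finset ZI) : Prop where
  good : ∀ J ⊆ R, GoodX (D * ∏ ρ ∈ J, ρ)
  non : ∀ ρ ∈ R, ∀ π : ZI, Prime π → π ∣ ρ → ∀ J ⊆ R, NrX (D * ∏ ρ ∈ J, ρ) π

/-- the generators of degree two -/
def QuadX (D : ZI) (R : Finset ZI) (δ : ZI) : Prop :=
  δ ≠ 0 ∧ ∀ π : ZI, Prime π → π ∣ δ → ∀ J ⊆ R, NrX (D * ∏ ρ ∈ J, ρ) π

/-- **the criterion over Kummer extensions of exponent four** -/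
theorem crit_x (P : Parts) (PX : PartsX) (hC : S_CRX) {D : ZI} {R : Finset ZI} (hR : QuartX D R)
    {K : Type} [Field K] [NumberField K]
    (e : ZI ≃+* 𝓞 K) {F : Type} [Field F] [NumberField F] [Algebra K F] (T : Finset F)
    (hT : ∀ t ∈ T, (∃ δ : ZI, QuadX D R δ ∧ t ^ 2 = algebraMap K F ((e δ : 𝓞 K) : K)) ∨
      ∃ ρ ∈ R, t ^ 4 = algebraMap K F ((e ρ : 𝓞 K) : K))
    (htop : IntermediateField.adjoin K (T : Set F) = ⊤) :
    Co2 (algebraMap K F ((e D : 𝓞 K) : K)) := by
  set 𝒢 : Set K := {x | ∃ J ⊆ R, ∃ t : ZI, t ≠ 0 ∧ (∀ π : ZI, Prime π → π ∣ t → ∀ J ⊆ R,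
    NrX (D * ∏ ρ ∈ J, ρ) π) ∧ x = em0 e ((D * ∏ ρ ∈ J, ρ) * t ^ 2)} with h𝒢
  have hne : ∀ J ⊆ R, D * ∏ ρ ∈ J, ρ ≠ 0 := fun J hJ => (hR.good J hJ).1.1.ne_zero
  have h0 : ∀ δ ∈ 𝒢, δ ≠ 0 := by
    rintro δ ⟨J, hJ, t, ht, -, rfl⟩
    exact em0_ne e (mul_ne_zero (hne J hJ) (pow_ne_zero 2 ht))
  have hρ0 : ∀ ρ ∈ R, ρ ≠ 0 := by
    intro ρ hρ h
    have h1 := hne {ρ} (Finset.singleton_subset_iff.2 hρ)
    rw [Finset.prod_singleton, h, mul_zero] at h1
    exact h1 rfl
  have hbase : ∀ (F : Type) [Field F] [NumberField F] (f : K ≃+* F), ∀ δ ∈ 𝒢, Co2 (f δ) := by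
    rintro F _ _ f δ ⟨J, hJ, t, ht, hc, rfl⟩
    let eF : ZI ≃+* 𝓞 F := e.trans (RingOfIntegers.mapRingEquiv f)
    have h1 : f (em0 e ((D * ∏ ρ ∈ J, ρ) * t ^ 2)) = em0 eF ((D * ∏ ρ ∈ J, ρ) * t ^ 2) := rfl
    rw [h1]
    exact base_good P PX hC (hR.good J hJ) ht (fun π hπ hd => hc π hπ hd J hJ) eF
  refine tower_all h0 hbase T ?_ htop _ ?_
  · intro t ht
    rcases hT t ht with ⟨δ, hδ, h2⟩ | ⟨ρ, hρ, h4⟩
    · left
      refine ⟨em0 e δ, h2, ?_⟩
      rintro _ ⟨J, hJ, t, ht, hc, rfl⟩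
      refine ⟨J, hJ, t * δ, mul_ne_zero ht hδ.1, ?_, ?_⟩
      · intro π hπ hd
        rcases hπ.dvd_or_dvd hd with h | h
        · exact hc π hπ h
        · exact hδ.2 π hπ h
      · rw [← map_pow, ← map_mul]
        congr 1
        ring
    · right
      refine ⟨em0 e ρ, h4, ?_⟩
      rintro _ ⟨J, hJ, t, ht, hc, rfl⟩
      by_cases hρJ : ρ ∈ J
      · refine ⟨J.erase ρ, (Finset.erase_subset _ _).trans hJ, t * ρ, mul_ne_zero ht (hρ0 ρ hρ), ?_, ?_⟩
        · intro π hπ hd
          rcases hπ.dvd_or_dvd hd with h | h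
          · exact hc π hπ h
          · exact hR.non ρ hρ π hπ h
        · rw [← map_mul]
          congr 1
          rw [← Finset.mul_prod_erase J (fun σ => σ) hρJ]
          ring
      · refine ⟨insert ρ J, Finset.insert_subset hρ hJ, t, ht, hc, ?_⟩
        rw [← map_mul]
        congr 1
        rw [Finset.prod_insert hρJ]
        ring
  · refine ⟨∅, Finset.empty_subset _, 1, one_ne_zero, ?_, ?_⟩
    · intro π hπ hd
      exact absurd (isUnit_of_dvd_one hd) hπ.not_isUnit
    · rw [Finset.prod_empty, mul_one, one_pow, mul_one]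
      rfl

end Pool.Agent.L7h3.QX
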