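import Pool.Agent.L7h3.QX.Crt
import Pool.Agent.L7h3.QE.Lf

/-!
# Project QX: the leaves give the data
-/

set_option autoImplicit false
set_option linter.unusedSectionVars false

open NumberField IsDedekindDomain

namespace Pool.Agent.L7h3.QX

open scoped Classical
open Finset
open Pool.Agent.L7h3.QE (Leaf ep_of_one ep_of_neg exists_leaf eq_or_star PP_star)
open Pool.Agent.L7h3.MR
open Pool.Agent.L7h3.GX (Sol Gd nrm_int)
open Pool.Agent.Y699
open H385 (ZI RQ im1 nrm)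
open Pool.Agent.H304R2.EC.A1 (prim prim_mul prim_cancel prim_one prim_norm_odd prim_star eq_one_of_prim
  norm_def' re_mul' im_mul' eq_of_dvd prim_ne_zero exists_prim)

lemma leaf_wx {D π₁ ρ : ZI} (h : Leaf D π₁ ρ) : wx ρ = 0 := by
  have := h.norm.1
  unfold wx
  rw [if_neg (by omega)]

/-- the unit -/
lemma qr_leaf_unit {D π₁ ρ : ZI} (h : Leaf D π₁ ρ) (k : ℕ) (x : ZI) : qr ρ (im1 ^ k * x) = qr ρ x := by
  have hP := h.pp
  obtain ⟨q, hq, h8, hρ⟩ := h.ex
  have := Fact.mk hq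
  rw [qr_inert hP (by omega) hρ, qr_inert hP (by omega) hρ, Zsqrtd.norm_mul, im1_pow_norm, one_mul]

section

variable {D π₁ : ZI} (hps : PS D) (h1 : π₁ ∈ PD D) {R : Finset ZI} (hR : ∀ ρ ∈ R, Leaf D π₁ ρ)

include hps hR

lemma leaf_PSx : PS (D * ∏ ρ ∈ R, ρ) ∧ PD (D * ∏ ρ ∈ R, ρ) = PD D ∪ R ∧ Disjoint (PD D) R := by
  have hdis : Disjoint (PD D) R := by
    rw [Finset.disjoint_left]
    intro π h2 h3
    exact (hR π h3).not_mem h2
  have h2 : ∀ π ∈ PD D ∪ R, PP π := by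
    intro π hπ
    rcases Finset.mem_union.1 hπ with h3 | h3
    · exact ((mem_PD hps.ne).1 h3).1
    · exact (hR π h3).pp
  have h3 := PS_prod h2
  rw [Finset.prod_union hdis, hps.prod] at h3
  exact ⟨h3.1, h3.2, hdis⟩

lemma leaf_norm8 : (D * ∏ ρ ∈ R, ρ).norm % 8 = D.norm % 8 := by
  have h2 : ∀ S ⊆ R, (∏ ρ ∈ S, ρ).norm % 8 = 1 := by
    intro S
    induction S using Finset.induction_on with
    | empty => intro _; rw [Finset.prod_empty]; decide
    | insert a S ha ih =>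
      intro hS
      have h3 := (hR a (hS (Finset.mem_insert_self a S))).norm.1
      have h4 := ih (fun x hx => hS (Finset.mem_insert_of_mem hx))
      have h5 : a.norm % 8 = 1 := by omega
      rw [Finset.prod_insert ha, Zsqrtd.norm_mul, Int.mul_emod, h5, h4]
      norm_num
  rw [Zsqrtd.norm_mul, Int.mul_emod, h2 R (Finset.Subset.refl _), mul_one, Int.emod_emod_of_dvd _ dvd_rfl]

include h1

/-- the sums over the leaves -/
lemma leaf_sums (v : ZI → ZMod 2) :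
    (∀ ρ ∈ R, ∑ σ ∈ PD D ∪ R, ep ρ σ * (v σ - v ρ) = v π₁ - v ρ) ∧
    ((∀ ρ ∈ R, v ρ = v π₁) → ∀ π ∈ PD D, ∑ σ ∈ PD D ∪ R, ep π σ * (v σ - v π) =
      ∑ σ ∈ PD D, ep π σ * (v σ - v π)) := by
  obtain ⟨-, -, hdis⟩ := leaf_PSx hps hR
  constructor
  · intro ρ hρ
    rw [Finset.sum_union hdis]
    have h3 : ∑ σ ∈ R, ep ρ σ * (v σ - v ρ) = 0 := by
      refine Finset.sum_eq_zero fun σ hσ => ?_
      by_cases he : ρ = σ
      · rw [he, sub_self, mul_zero]
      · rw [ep_of_one ((hR ρ hρ).two (hR σ hσ) he), zero_mul]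
    have h4 : ∑ π ∈ PD D, ep ρ π * (v π - v ρ) = v π₁ - v ρ := by
      rw [Finset.sum_eq_single_of_mem π₁ h1]
      · have h5 := (hR ρ hρ).sy π₁ h1
        rw [if_pos rfl] at h5
        rw [ep_of_neg h5, one_mul]
      · intro π hπ hne
        have h5 := (hR ρ hρ).sy π hπ
        rw [if_neg hne] at h5
        rw [ep_of_one h5, zero_mul]
    rw [h3, h4, add_zero]
  · intro hleaf π hπ
    rw [Finset.sum_union hdis]
    have h3 : ∑ σ ∈ R, ep π σ * (v σ - v π) = 0 := by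
      refine Finset.sum_eq_zero fun σ hσ => ?_
      rw [hleaf σ hσ]
      by_cases he : π = π₁
      · rw [he, sub_self, mul_zero]
      · have h5 := (hR σ hσ).sy π hπ
        rw [if_neg he] at h5
        have h6 : qr π σ = 1 := by
          rw [qr_rec ((mem_PD hps.ne).1 hπ).1 (hR σ hσ).pp]
          exact h5
        rw [ep_of_one h6, zero_mul]
    rw [h3, add_zero]

lemma leaf_gd (hg : Gd (PD D)) : Gd (PD (D * ∏ ρ ∈ R, ρ)) := by
  obtain ⟨hPS, hPD, hdis⟩ := leaf_PSx hps hR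
  rw [hPD]
  intro v hv
  obtain ⟨s1, s2⟩ := leaf_sums hps h1 hR v
  have hleaf : ∀ ρ ∈ R, v ρ = v π₁ := by
    intro ρ hρ
    have h2 := hv ρ (Finset.mem_union_right _ hρ)
    rw [s1 ρ hρ] at h2
    exact (sub_eq_zero.1 h2).symm
  have hD : ∀ π ∈ PD D, ∀ π' ∈ PD D, v π = v π' := by
    refine hg v ?_
    intro π hπ
    have h2 := hv π (Finset.mem_union_left _ hπ)
    rwa [s2 hleaf π hπ] at h2
  have hall : ∀ π ∈ PD D ∪ R, v π = v π₁ := by
    intro π hπ
    rcases Finset.mem_union.1 hπ with h2 | h2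
    · exact hD π h2 π₁ h1
    · exact hleaf π h2
  intro π hπ ρ hρ
  rw [hall π hπ, hall ρ hρ]

lemma leaf_gdx (hg : GdX (PD D)) : GdX (PD (D * ∏ ρ ∈ R, ρ)) := by
  obtain ⟨hPS, hPD, hdis⟩ := leaf_PSx hps hR
  rw [hPD]
  intro v hv
  obtain ⟨s1, s2⟩ := leaf_sums hps h1 hR v
  have hleaf : ∀ ρ ∈ R, v ρ = v π₁ := by
    intro ρ hρ
    have h2 := hv ρ (Finset.mem_union_right _ hρ)
    rw [s1 ρ hρ, leaf_wx (hR ρ hρ), zero_mul, sub_zero] at h2
    exact (sub_eq_zero.1 h2).symm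
  have hD : ∀ π ∈ PD D, v π = 0 := by
    refine hg v ?_
    intro π hπ
    have h2 := hv π (Finset.mem_union_left _ hπ)
    rwa [s2 hleaf π hπ] at h2
  intro π hπ
  rcases Finset.mem_union.1 hπ with h2 | h2
  · exact hD π h2
  · rw [hleaf π h2]
    exact hD π₁ h1

end

/-- **the leaves give the data** -/
theorem leaf_quartx (hC : S_CRX) {D D0 π₁ : ZI} {k : ℕ} (hk : k < 4) (hD : D = im1 ^ k * D0)
    (hps : PS D0) (hg : (k % 2 = 1 ∧ GdX (PD D0)) ∨ (k % 2 = 0 ∧ D0.norm % 8 = 5 ∧ Gd (PD D0)))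
    (h1 : π₁ ∈ PD D0) {R : Finset ZI} (hR : ∀ ρ ∈ R, Leaf D0 π₁ ρ) : QuartX D R := by
  have hJR : ∀ J ⊆ R, ∀ ρ ∈ J, Leaf D0 π₁ ρ := fun J hJ ρ hρ => hR ρ (hJ hρ)
  refine ⟨fun J hJ => ?_, ?_⟩
  · refine (hC _).2.2 ⟨k, hk, D0 * ∏ ρ ∈ J, ρ, by rw [hD]; ring, (leaf_PSx hps (hJR J hJ)).1, ?_⟩
    rcases hg with ⟨h2, h3⟩ | ⟨h2, h3, h4⟩
    · exact Or.inl ⟨h2, leaf_gdx hps h1 (hJR J hJ) h3⟩
    · exact Or.inr ⟨h2, by rw [leaf_norm8 hps (hJR J hJ)]; exact h3, leaf_gd hps h1 (hJR J hJ) h4⟩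
  intro ρ hρ π hπ hd J hJ
  have hρP := (hR ρ hρ).pp
  have hass : Associated π ρ := hπ.associated_of_dvd hρP.pr hd
  by_cases hρJ : ρ ∈ J
  · left
    exact (hd.trans (Finset.dvd_prod_of_mem (fun x => x) hρJ)).trans (dvd_mul_left _ _)
  · right
    intro x hx
    have hx' : ρ ∣ x ^ 2 - D * ∏ σ ∈ J, σ := hass.symm.dvd.trans hx
    have h2 : qr ρ (D * ∏ σ ∈ J, σ) = -1 := by
      have e1 : qr ρ D0 = -1 := by
        have h3 := hps.prod
        have h4 : qr ρ (∏ π ∈ PD D0, π) = ∏ π ∈ PD D0, qr ρ π := by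
          have h5 := jac_prod hρP.ne (PD D0) (fun u => u)
          rw [jac_prime hρP] at h5
          rw [h5]
          exact Finset.prod_congr rfl fun u _ => jac_prime hρP u
        rw [← h3, h4, ← Finset.mul_prod_erase _ _ h1]
        have h5 := (hR ρ hρ).sy π₁ h1
        rw [if_pos rfl] at h5
        rw [h5, Finset.prod_eq_one, mul_one]
        intro π hπ
        obtain ⟨hne, hπD⟩ := Finset.mem_erase.1 hπ
        have h6 := (hR ρ hρ).sy π hπD
        rwa [if_neg hne] at h6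
      have e2 : qr ρ (∏ σ ∈ J, σ) = 1 := by
        have h5 := jac_prod hρP.ne J (fun u => u)
        rw [jac_prime hρP] at h5
        rw [h5]
        refine Finset.prod_eq_one fun u hu => ?_
        rw [jac_prime hρP]
        exact (hR ρ hρ).two (hR u (hJ hu)) (fun h => hρJ (by rw [h]; exact hu))
      rw [qr_mul hρP, hD, qr_leaf_unit (hR ρ hρ), e1, e2, mul_one]
    have h3 : qr ρ (x ^ 2) = -1 := (qr_per hx').trans h2
    by_cases h4 : ρ ∣ x
    · have h5 : qr ρ (x ^ 2) = 0 := qr_zero_iff.2 (dvd_pow h4 two_ne_zero)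
      rw [h5] at h3
      norm_num at h3
    · have h5 := qr_sq' hρP h4
      rw [h5] at h3
      norm_num at h3

/-- **there are infinitely many primes whose fourth roots can be adjoined, in any number** -/
theorem inf_quartx (hC : S_CRX) (hL : S_LFX) {D π : ZI} (hg : GoodX D) (hπ : Prime π) (hd : π ∣ D)
    (hs : ¬ star π ∣ D) : ∃ P : Set ZI, P.Infinite ∧
    (∀ ρ ∈ P, ∃ q : ℕ, q.Prime ∧ q % 8 = 7 ∧ ρ = -(q : ZI)) ∧
    ∀ R : Finset ZI, (R : Set ZI) ⊆ P → QuartX D R := by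
  obtain ⟨k, hk, D0, hD, hps, h⟩ := (hC D).2.1 hg
  have hd0 : π ∣ D0 := by
    rw [hD] at hd
    exact ((im1_pow_unit k).dvd_mul_left).1 hd
  have hs0 : ¬ star π ∣ D0 := fun h' => hs (h'.trans (by rw [hD]; exact dvd_mul_left _ _))
  have hodd : π.norm % 2 = 1 := by
    have h2 := hg.1.2.1
    obtain ⟨c, hc⟩ := hd
    rw [hc, Zsqrtd.norm_mul] at h2
    rcases Int.emod_two_eq_zero_or_one π.norm with h3 | h3
    · rw [Int.mul_emod, h3, zero_mul] at h2
      norm_num at h2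
    · exact h3
  obtain ⟨u, w, huw, hu⟩ := exists_prim π hodd
  have huu : IsUnit u := IsUnit.of_mul_eq_one w huw
  have hPP : PP (u * π) := by
    refine ⟨?_, hu⟩
    exact (associated_unit_mul_left π u huu).symm.prime hπ
  have h1 : u * π ∈ PD D0 := (mem_PD hps.ne).2 ⟨hPP, (huu.mul_left_dvd).2 hd0⟩
  have hst : ¬ star (u * π) ∣ D0 := by
    intro h'
    apply hs0
    rw [star_mul'] at h'
    exact (dvd_mul_left _ _).trans h'
  have h2 : (nrm (u * π)).Prime ∧ ∀ π' ∈ PD D0, π' ≠ u * π → π'.norm ≠ (u * π).norm := by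
    constructor
    · have h7 := nrm_int (u * π)
      rcases hPP.cases with ⟨p, hp, hp4, hpn⟩ | ⟨q, hq, hq4, hqn⟩
      · have e1 : nrm (u * π) = p := by rw [hpn] at h7; exact_mod_cast h7
        rw [e1]; exact hp
      · exfalso
        apply hst
        have e1 : star (u * π) = u * π := by
          rw [hqn, star_neg]
          congr 1
        rw [e1]
        exact (huu.mul_left_dvd).2 hd0
    · intro π' hπ' hne hn
      rcases eq_or_star hPP ((mem_PD hps.ne).1 hπ').1 hn with h3 | h3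
      · exact hne h3
      · apply hst
        rw [← h3]
        exact ((mem_PD hps.ne).1 hπ').2
  refine ⟨{ρ | Leaf D0 (u * π) ρ}, hL D0 (u * π) hps h1 h2.1 h2.2, fun ρ hρ => hρ.ex, fun R hR => ?_⟩
  exact leaf_quartx hC hk hD hps h h1 (fun ρ hρ => hR (Finset.mem_coe.2 hρ))

/-- if `N(D) = 5` modulo `8`, there is such a prime divisor -/
theorem exists_pi (hC : S_CRX) {D : ZI} (hg : GoodX D) (h5 : D.norm % 8 = 5) :
    ∃ π : ZI, Prime π ∧ π ∣ D ∧ ¬ star π ∣ D := by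
  obtain ⟨k, hk, D0, hD, hps, h⟩ := (hC D).2.1 hg
  have hn : D0.norm % 8 = 5 := by
    have : D.norm = D0.norm := by rw [hD, Zsqrtd.norm_mul, im1_pow_norm, one_mul]
    rw [← this]; exact h5
  obtain ⟨π₁, h1, h2, h3⟩ := exists_leaf hps hn
  have hP := ((mem_PD hps.ne).1 h1).1
  refine ⟨π₁, hP.pr, ?_, ?_⟩
  · rw [hD]; exact ((mem_PD hps.ne).1 h1).2.trans (dvd_mul_left _ _)
  · intro h'
    rw [hD] at h'
    have h4 := ((im1_pow_unit k).dvd_mul_left).1 h'
    have h5 : star π₁ ∈ PD D0 := (mem_PD hps.ne).2 ⟨PP_star hP, h4⟩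
    by_cases h6 : star π₁ = π₁
    · rcases hP.cases with ⟨p, hp, hp4, hpn⟩ | ⟨q, hq, hq4, hqn⟩
      · have h7 : π₁.im = 0 := by
          have := congrArg Zsqrtd.im h6
          rw [Zsqrtd.im_star] at this
          omega
        rw [norm_def', h7] at hpn
        have h8 : ((π₁.re.natAbs : ℕ) : ℤ) ^ 2 = p := by rw [Int.natAbs_pow_two]; linarith
        have h9 : π₁.re.natAbs ^ 2 = p := by exact_mod_cast h8
        rw [← h9] at hp
        exact Nat.Prime.not_prime_pow le_rfl hp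
      · rw [hqn, Zsqrtd.norm_neg, norm_def'] at h2
        simp only [Zsqrtd.re_natCast, Zsqrtd.im_natCast] at h2
        obtain ⟨j, hj⟩ : ∃ j, q = 4 * j + 3 := ⟨q / 4, by omega⟩
        rw [hj] at h2
        push_cast at h2
        ring_nf at h2
        omega
    · exact h3 _ h5 h6 (Zsqrtd.norm_conj π₁)

end Pool.Agent.L7h3.QX
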