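import Pool.Agent.L7h3.QX.Adx
import Pool.Agent.L7h3.QX.Lf
import Pool.Agent.L7h3.QD.Fin
import Pool.Agent.L7h97.QX.Rex
import Pool.Agent.L7h97.QX.Lfx
import Pool.Agent.L7h97.QX.Crx
import Pool.Agent.L7h97.QX.Mgx
import Pool.Agent.L7h97.QX.Ful
import Pool.Agent.L7h65.QX.Sqx
import Pool.Agent.L7h65.QX.Ha2
import Pool.Agent.L7h65.QX.Hs2
import Pool.Agent.L7h23.QX.Rsx
import Pool.Agent.L7h23.QX.Lix
import Pool.Agent.L7h93.QX.Hcx
import Pool.Agent.L7h93.QX.Lhx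
import Pool.Agent.L7h65.QX.Kxx
import Pool.Agent.L7h73.QX.Par
import Pool.Agent.L7h73.QX.Dix
import Pool.Agent.L7h73.QX.Ct7
import Pool.Agent.L7h77.QX.Cmb
import Pool.Agent.L7h89.QX.Unx

/-!
# Project QX: all the parts
-/

set_option autoImplicit false

namespace Pool.Agent.L7h3.QX

theorem t_CMB : S_CMB := Pool.Agent.L7h77.QX.t_CMB Pool.Agent.L7h97.QX.t_CRX

theorem t_CT7 : S_CT7 := Pool.Agent.L7h73.QX.t_CT7

theorem t_LIX : S_LIX := Pool.Agent.L7h23.QX.t_LIX Pool.Agent.L7h73.QX.t_DIX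

/-- all the parts for the odd exponents: helper23 (`LIX`, `ERX`, `PHX`), helper65 (`SQX`), helper73
(`DIX`, `PAR`, `DTX`), helper89 (`UNX`), helper93 (`HCX`, `LHX`), helper97 (`MGX`, `REX`) -/
theorem partsX : PartsX where
  kxx := Pool.Agent.L7h65.QX.t_KXX
  unx := Pool.Agent.L7h89.QX.t_UNX
  lix := t_LIX
  erx := Pool.Agent.L7h23.QX.t_ERX t_LIX
  phx := Pool.Agent.L7h23.QX.t_PHX
  mgx := Pool.Agent.L7h97.QX.t_MGX Pool.Agent.L7h73.QX.t_PAR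
  dtx := Pool.Agent.L7h73.QX.t_DTX
  hcx := Pool.Agent.L7h93.QX.t_HCX
  lhx := Pool.Agent.L7h93.QX.t_LHX
  rex := Pool.Agent.L7h97.QX.t_REX
  sqx := Pool.Agent.L7h65.QX.t_SQX
  lf := Pool.Agent.L7h32.QD.t_LF
  fin := Pool.Agent.L7h93.QD.t_FIN

theorem t_FUL : S_FUL := Pool.Agent.L7h97.QX.t_FUL Pool.Agent.L7h65.QX.t_HS2

end Pool.Agent.L7h3.QX
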