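import Pool.Agent.L7h3.QX.Stm

/-!
# Project QX: the limit of `FE` and the addition formula
-/

set_option autoImplicit false
set_option linter.unusedSectionVars false
set_option linter.unusedSimpArgs false

open Filter Complex
open scoped Topology PeriodPair
open H667R3 hiding sq
open Pool.Agent.TH936.CM Pool.Agent.W192.HK

namespace Pool.Agent.L7h3.QX

open Pool.Agent.Y699
open H385 (ZI RQ im1 nrm)
open Pool.Agent.H304R3.HK (tc HC LH chi_le)
open Pool.Agent.W164.RC (tc_mul tc_star two2 prim_iff_dvd unit_cases)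

variable {L : PeriodPair} {Ω : ℂ}

/-- the half periods -/
structure HP (L : PeriodPair) (T b : ℂ) : Prop where
  two : 2 * T ∈ L.lattice
  nm : T ∉ L.lattice
  val : ℘[L] T = b

lemma hp1 (h : GLat L Ω) : HP L (Ω / 2) (℘[L] (Ω / 2)) where
  two := by
    refine (mem_lat h.lat).2 ⟨1, ?_⟩
    rw [tc_one]; ring
  nm := h.half
  val := rfl

lemma hp2 (h : GLat L Ω) : HP L (I * (Ω / 2)) (-℘[L] (Ω / 2)) where
  two := by
    refine (mem_lat h.lat).2 ⟨im1, ?_⟩
    rw [tc_im1]; ring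
  nm := by
    intro h'
    have h1 := lat_I h.lat h'
    apply h.half
    have e : Ω / 2 = -(I * (I * (Ω / 2))) := by
      linear_combination (Ω / 2) * I_sq
    rw [e]
    exact neg_mem h1
  val := wp_I h.lat _

lemma one_I_ne' : (1 + I : ℂ) ≠ 0 := one_I_ne

lemma T3_eq (Ω : ℂ) : (1 + I) * (Ω / 2) = I * (Ω * tc 1 / tc pi1) := by
  rw [tc_one, tc_pi1]
  have := one_I_ne'
  field_simp
  linear_combination Ω * I_sq

lemma hp3 (h : GLat L Ω) : HP L ((1 + I) * (Ω / 2)) 0 where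
  two := by
    refine (mem_lat h.lat).2 ⟨⟨1, 1⟩, ?_⟩
    unfold tc
    push_cast
    ring
  nm := by
    rw [T3_eq]
    intro h'
    have h1 := lat_I h.lat h'
    apply h.s1
    have e : Ω * tc 1 / tc pi1 = -(I * (I * (Ω * tc 1 / tc pi1))) := by
      linear_combination (Ω * tc 1 / tc pi1) * I_sq
    rw [e]
    exact neg_mem h1
  val := by
    rw [T3_eq, wp_I h.lat, h.wp_s1, neg_zero]

lemma nm_of_two {z : ℂ} (hz : 2 * z ∉ L.lattice) : z ∉ L.lattice := fun h' => hz (by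
  have := L.lattice.smul_mem (2 : ℤ) h'
  have e : (2 : ℤ) • z = 2 * z := by rw [zsmul_eq_mul]; push_cast; ring
  rwa [e] at this)

/-- translations -/
lemma HP.add {T b z : ℂ} (H : HP L T b) (hz : 2 * z ∉ L.lattice) : 2 * (z + T) ∉ L.lattice := by
  intro h'
  apply hz
  have := sub_mem h' H.two
  have e : 2 * (z + T) - 2 * T = 2 * z := by ring
  rwa [e] at this

lemma HP.sub {T b z : ℂ} (H : HP L T b) (hz : 2 * z ∉ L.lattice) : 2 * (z - T) ∉ L.lattice := by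
  intro h'
  apply hz
  have := add_mem h' H.two
  have e : 2 * (z - T) + 2 * T = 2 * z := by ring
  rwa [e] at this

lemma HP.ne {T b z : ℂ} (H : HP L T b) (hz : 2 * z ∉ L.lattice) : ℘[L] z - b ≠ 0 := by
  rw [sub_ne_zero, ← H.val, Ne, wp_eq_iff L (nm_of_two hz) H.nm]
  intro h'
  rcases h' with h' | h'
  · exact nm_of_two (H.add hz) h'
  · exact nm_of_two (H.sub hz) h'

lemma wp'_ne (L : PeriodPair) {z : ℂ} (hz : 2 * z ∉ L.lattice) : ℘'[L] z ≠ 0 := by
  exact wp'_ne_zero L hz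

/-- the translation formula before simplification -/
lemma HP.trans (h : GLat L Ω) {T b z : ℂ} (H : HP L T b) (hz : 2 * z ∉ L.lattice) :
    ℘[L] (z + T) = ℘[L] z - ((6 * ℘[L] z ^ 2 - 2) * (℘[L] z - b) - (4 * ℘[L] z ^ 3 - 4 * ℘[L] z)) /
      (2 * (℘[L] z - b) ^ 2) := by
  have h1 := wp_add L hz H.nm (nm_of_two (H.add hz)) (nm_of_two (H.sub hz))
  have h2 : ℘'[L] T = 0 := by
    have := wp'_half_eq_zero L H.two
    rwa [mul_div_cancel_left₀ _ (two_ne_zero)] at this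
  rw [h1, H.val, h2, h.g2, sub_zero, ← pow_two, h.eqn (nm_of_two hz)]
  norm_num

/-- the limit of the difference with a half period -/
lemma HP.lim (h : GLat L Ω) {T b z : ℂ} (H : HP L T b) (hz : 2 * z ∉ L.lattice) :
    Tendsto (fun δ : ℝ => EG Ω δ (z + T) - EG Ω δ z) (𝓝[>] 0)
      (𝓝 (1 / 2 * (℘'[L] z / (℘[L] z - b)))) := by
  have h3 := (lim_Dd h.lat (nm_of_two hz) H.nm (nm_of_two (H.add hz))
    (nm_of_two (H.sub hz))).const_mul (1 / 2)
  unfold Dd at h3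
  rw [H.val] at h3
  refine h3.congr fun δ => ?_
  rw [← EG_eq, ← EG_eq, ← EG_eq]
  have e : EG Ω δ (z - T) = EG Ω δ (z + T) := by
    apply EG_per h.lat
    have e3 : z - T - (z + T) = -(2 * T) := by ring
    rw [e3]
    exact neg_mem H.two
  rw [e]; ring

/-- **S_FEX** -/
theorem t_FEX : S_FEX := by
  intro L Ω h z hz
  have l1 := (hp1 h).lim h hz
  have l2 := (hp2 h).lim h hz
  have l3 := (hp3 h).lim h hz
  have n1 := (hp1 h).ne hz
  have n2 := (hp2 h).ne hz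
  have n3 := (hp3 h).ne hz
  rw [sub_neg_eq_add] at n2
  rw [sub_zero] at n3
  have he := h.e1_sq
  have hy := h.eqn (nm_of_two hz)
  have hy0 := wp'_ne L hz
  have l := (l2.sub l1).sub l3
  have hval : 1 / 2 * (℘'[L] z / (℘[L] z - -℘[L] (Ω / 2))) - 1 / 2 * (℘'[L] z / (℘[L] z - ℘[L] (Ω / 2))) -
      1 / 2 * (℘'[L] z / (℘[L] z - 0)) = -2 * s1 L (℘[L] (Ω / 2)) z := by
    unfold s1
    rw [sub_neg_eq_add, sub_zero]
    set e := ℘[L] (Ω / 2)
    set a := ℘[L] z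
    set y := ℘'[L] z
    have hprod : (a + e) * (a - e) = a ^ 2 - 1 := by linear_combination -he
    field_simp
    linear_combination (-(a ^ 2 - 1) - 2 * e * a) * hy + (y ^ 2 - 4 * a * (a ^ 2 + 2 * e * a - 1)) * he
  rw [hval] at l
  refine l.congr fun δ => ?_
  unfold FE
  ring

/-- the values at the translates -/
lemma trans_vals (h : GLat L Ω) {t : ℂ} (ht : 2 * t ∉ L.lattice) :
    ℘[L] (t + Ω / 2) = (℘[L] (Ω / 2) * ℘[L] t + 1) / (℘[L] t - ℘[L] (Ω / 2)) ∧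
    ℘[L] (t + I * (Ω / 2)) = (1 - ℘[L] (Ω / 2) * ℘[L] t) / (℘[L] t + ℘[L] (Ω / 2)) ∧
    ℘[L] (t + (1 + I) * (Ω / 2)) = -1 / ℘[L] t := by
  have n1 := (hp1 h).ne ht
  have n2 := (hp2 h).ne ht
  have n3 := (hp3 h).ne ht
  rw [sub_neg_eq_add] at n2
  rw [sub_zero] at n3
  have he := h.e1_sq
  rw [(hp1 h).trans h ht, (hp2 h).trans h ht, (hp3 h).trans h ht, sub_neg_eq_add, sub_zero]
  set e := ℘[L] (Ω / 2)
  set b := ℘[L] t
  have hb : b ^ 2 - 1 = (b - e) * (b + e) := by linear_combination he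
  refine ⟨?_, ?_, ?_⟩
  · have e1 : (6 * b ^ 2 - 2) * (b - e) - (4 * b ^ 3 - 4 * b) = (b - e) * (2 * b ^ 2 - 2 - 4 * b * e) := by
      linear_combination (-4 * b) * he
    rw [e1]
    field_simp
    ring
  · have e1 : (6 * b ^ 2 - 2) * (b + e) - (4 * b ^ 3 - 4 * b) = (b + e) * (2 * b ^ 2 - 2 + 4 * b * e) := by
      linear_combination (-4 * b) * he
    rw [e1]
    field_simp
    ring
  · field_simp
    ring

lemma sq_eq_one_iff_of_ne_zero' {e : ℂ} (he : e ^ 2 = 1) : e = 1 ∨ e = -1 :=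
  (sq_eq_one_iff (a := e)).1 he

lemma alg_diff (a b e : ℂ) (he : e ^ 2 = 1) (a0 : a ≠ 0) (a1 : a - e ≠ 0) (a2 : a + e ≠ 0)
    (b0 : b ≠ 0) (b1 : b - e ≠ 0) (b2 : b + e ≠ 0) :
    (b ^ 2 + 1) ^ 2 / (4 * b * (b - e) * (b + e)) - (a ^ 2 + 1) ^ 2 / (4 * a * (a - e) * (a + e)) =
      -((a - b) * (a * b + 1) * (a * (b - e) - (e * b + 1)) *
      (a * (b + e) - (1 - e * b))) / (4 * (a * (a - e) * (a + e)) * (b * (b - e) * (b + e))) := by
  rcases (sq_eq_one_iff_of_ne_zero' he) with rfl | rfl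
  · field_simp
    ring
  · field_simp
    ring

lemma alg_lim (a b e y : ℂ) (he : e ^ 2 = 1) (hy : y ^ 2 = 4 * (a * (a - e) * (a + e))) (hy0 : y ≠ 0)
    (a0 : a ≠ 0) (a1 : a - e ≠ 0) (a2 : a + e ≠ 0)
    (b0 : b ≠ 0) (b1 : b - e ≠ 0) (b2 : b + e ≠ 0) (c0 : a - b ≠ 0)
    (d1 : a * (b - e) - (e * b + 1) ≠ 0) (d2 : a * (b + e) - (1 - e * b) ≠ 0) (d3 : a * b + 1 ≠ 0) :
    y / (a - b) + y / (a - (1 - e * b) / (b + e)) - y / (a - (e * b + 1) / (b - e)) - y / (a - -1 / b) =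
      -4 * ((a ^ 2 + 2 * e * a - 1) / y) *
        ((b ^ 2 + 1) * (b ^ 2 - 2 * e * b - 1) / (4 * b * (b - e) * (b + e))) /
      (-((a - b) * (a * b + 1) * (a * (b - e) - (e * b + 1)) *
      (a * (b + e) - (1 - e * b))) / (4 * (a * (a - e) * (a + e)) * (b * (b - e) * (b + e)))) := by
  have e1 : a - (1 - e * b) / (b + e) = (a * (b + e) - (1 - e * b)) / (b + e) := by field_simp
  have e2 : a - (e * b + 1) / (b - e) = (a * (b - e) - (e * b + 1)) / (b - e) := by field_simp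
  have e3 : a - -1 / b = (a * b + 1) / b := by field_simp; ring
  rw [e1, e2, e3]
  have hA : y / (a - b) + y / ((a * (b + e) - (1 - e * b)) / (b + e)) -
      y / ((a * (b - e) - (e * b + 1)) / (b - e)) - y / ((a * b + 1) / b) =
      y * (4 * ((a ^ 2 + 2 * e * a - 1) * ((b ^ 2 + 1) * (b ^ 2 - 2 * e * b - 1)))) /
      (4 * ((a - b) * (a * b + 1) * (a * (b - e) - (e * b + 1)) * (a * (b + e) - (1 - e * b)))) := by
    obtain ⟨p, hp⟩ : ∃ p, p = a * (b - e) - (e * b + 1) := ⟨_, rfl⟩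
    obtain ⟨q, hq⟩ : ∃ q, q = a * (b + e) - (1 - e * b) := ⟨_, rfl⟩
    rw [← hp, ← hq]
    rw [← hp] at d1
    rw [← hq] at d2
    field_simp
    rw [hp, hq]
    rcases (sq_eq_one_iff_of_ne_zero' he) with rfl | rfl
    · ring
    · ring
  rw [hA]
  have hB : ((a ^ 2 + 2 * e * a - 1) / y) = y * (a ^ 2 + 2 * e * a - 1) / (4 * (a * (a - e) * (a + e))) := by
    rw [← hy]; field_simp
  rw [hB]
  field_simp

/-- **S_ADX** -/
theorem t_ADX : S_ADX := by
  intro L Ω h z t hz ht hzt1 hzt2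
  have he := h.e1_sq
  have n1 := (hp1 h).ne ht
  have n2 := (hp2 h).ne ht
  have n3 := (hp3 h).ne ht
  rw [sub_neg_eq_add] at n2
  rw [sub_zero] at n3
  have m1 := (hp1 h).ne hz
  have m2 := (hp2 h).ne hz
  have m3 := (hp3 h).ne hz
  rw [sub_neg_eq_add] at m2
  rw [sub_zero] at m3
  obtain ⟨v1, v2, v3⟩ := trans_vals h ht
  -- the limits
  have lim : ∀ T b : ℂ, HP L T b → ℘[L] z - ℘[L] (t + T) ≠ 0 ∧
      Tendsto (fun δ : ℝ => EG Ω δ (z + t + T) + EG Ω δ (z - t + T) - 2 * EG Ω δ z) (𝓝[>] 0)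
        (𝓝 (℘'[L] z / (℘[L] z - ℘[L] (t + T)))) := by
    intro T b H
    have a0 := nm_of_two (H.add ht)
    have a1 : z + (t + T) ∉ L.lattice := by
      have := nm_of_two (H.add hzt1)
      rwa [add_assoc] at this
    have a2 : z - (t + T) ∉ L.lattice := by
      have := nm_of_two (H.sub hzt2)
      have e : z - (t + T) = z - t - T := by ring
      rwa [e]
    constructor
    · rw [sub_ne_zero, Ne, wp_eq_iff L (nm_of_two hz) a0]
      rintro (h' | h')
      · exact a1 h'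
      · exact a2 h'
    · have h3 := lim_Dd h.lat (nm_of_two hz) a0 a1 a2
      unfold Dd at h3
      refine h3.congr fun δ => ?_
      rw [← EG_eq, ← EG_eq, ← EG_eq]
      have e : EG Ω δ (z - (t + T)) = EG Ω δ (z - t + T) := by
        apply EG_per h.lat
        have e3 : z - (t + T) - (z - t + T) = -(2 * T) := by ring
        rw [e3]
        exact neg_mem H.two
      rw [e, ← add_assoc]
  have lim0 : ℘[L] z - ℘[L] t ≠ 0 ∧
      Tendsto (fun δ : ℝ => EG Ω δ (z + t) + EG Ω δ (z - t) - 2 * EG Ω δ z) (𝓝[>] 0)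
        (𝓝 (℘'[L] z / (℘[L] z - ℘[L] t))) := by
    constructor
    · rw [sub_ne_zero, Ne, wp_eq_iff L (nm_of_two hz) (nm_of_two ht)]
      rintro (h' | h')
      · exact nm_of_two hzt1 h'
      · exact nm_of_two hzt2 h'
    · have h3 := lim_Dd h.lat (nm_of_two hz) (nm_of_two ht) (nm_of_two hzt1) (nm_of_two hzt2)
      unfold Dd at h3
      refine h3.congr fun δ => ?_
      rw [← EG_eq, ← EG_eq, ← EG_eq]
  obtain ⟨c0, l0⟩ := lim0
  obtain ⟨c1, l1⟩ := lim _ _ (hp1 h)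
  obtain ⟨c2, l2⟩ := lim _ _ (hp2 h)
  obtain ⟨c3, l3⟩ := lim _ _ (hp3 h)
  have l := ((l0.add l2).sub l1).sub l3
  rw [v1] at c1 l
  rw [v2] at c2 l
  rw [v3] at c3 l
  have hyz := h.eqn (nm_of_two hz)
  have hyt := h.eqn (nm_of_two ht)
  have hyz0 := wp'_ne L hz
  have hyt0 := wp'_ne L ht
  set e := ℘[L] (Ω / 2)
  set a := ℘[L] z
  set b := ℘[L] t
  set y := ℘'[L] z
  set w := ℘'[L] t
  -- the differences
  have d1 : a * (b - e) - (e * b + 1) ≠ 0 := by
    intro h0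
    apply c1
    field_simp
    linear_combination h0
  have d2 : a * (b + e) - (1 - e * b) ≠ 0 := by
    intro h0
    apply c2
    field_simp
    linear_combination h0
  have d3 : a * b + 1 ≠ 0 := by
    intro h0
    apply c3
    field_simp
    linear_combination h0
  have hs0z : s0 L z ^ 2 = (a ^ 2 + 1) ^ 2 / (4 * a * (a - e) * (a + e)) := by
    unfold s0
    rw [div_pow, hyz]
    congr 1
    linear_combination (4 * a) * he
  have hs0t : s0 L t ^ 2 = (b ^ 2 + 1) ^ 2 / (4 * b * (b - e) * (b + e)) := by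
    unfold s0
    rw [div_pow, hyt]
    congr 1
    linear_combination (4 * b) * he
  have hst : s0 L t * s2 L e t = (b ^ 2 + 1) * (b ^ 2 - 2 * e * b - 1) / (4 * b * (b - e) * (b + e)) := by
    unfold s0 s2
    rw [div_mul_div_comm, ← pow_two, hyt]
    congr 1
    linear_combination (4 * b) * he
  have hdiff : s0 L t ^ 2 - s0 L z ^ 2 = -((a - b) * (a * b + 1) * (a * (b - e) - (e * b + 1)) *
      (a * (b + e) - (1 - e * b))) / (4 * (a * (a - e) * (a + e)) * (b * (b - e) * (b + e))) := by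
    rw [hs0z, hs0t]
    exact alg_diff a b e he m3 m1 m2 n3 n1 n2
  have hS : s0 L t ^ 2 - s0 L z ^ 2 ≠ 0 := by
    rw [hdiff]
    apply div_ne_zero
    · exact neg_ne_zero.2 (mul_ne_zero (mul_ne_zero (mul_ne_zero c0 d3) d1) d2)
    · exact mul_ne_zero (mul_ne_zero (by norm_num) (mul_ne_zero (mul_ne_zero m3 m1) m2))
        (mul_ne_zero (mul_ne_zero n3 n1) n2)
  refine ⟨hS, ?_⟩
  have hy2 : y ^ 2 = 4 * (a * (a - e) * (a + e)) := by
    rw [hyz]
    linear_combination (4 * a) * he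
  have hv : -4 * s1 L e z * (s0 L t * s2 L e t) / (s0 L t ^ 2 - s0 L z ^ 2) =
      y / (a - b) + y / (a - (1 - e * b) / (b + e)) - y / (a - (e * b + 1) / (b - e)) - y / (a - -1 / b) := by
    rw [alg_lim a b e y he hy2 hyz0 m3 m1 m2 n3 n1 n2 c0 d1 d2 d3, hst, hdiff]
    rfl
  rw [hv]
  refine l.congr fun δ => ?_
  unfold FE
  ring

end Pool.Agent.L7h3.QX
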