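import Pool.Agent.L7h3.QX.Stm
import Pool.Agent.L7h3.QD.Bas

/-!
# The curves over `ℚ(i)` with odd exponent of the unit, from the statements of the parts
-/

set_option autoImplicit false
set_option linter.unusedSectionVars false

open NumberField IsDedekindDomain
open Filter Complex
open scoped Topology PeriodPair

namespace Pool.Agent.L7h3.QX

open scoped Classical
open Pool.Agent.Y699
open Pool.Agent.TH936.CM
open Pool.Agent.L7h3.MQ (DE TE Fac DE_prim DE_ne TE_ne DE_comp DE_eq norm_DE16 sol_finite)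
open Pool.Agent.L7h3.MR
open Pool.Agent.L7h3.QD (MG CoL Co2 S_LF S_FIN co2_scale pr_ndvd_four)
open H385 (ZI RQ im1 nrm)
open Pool.Agent.W164.RC (tc_mul tc_star two2 prim_iff_dvd unit_norm unit_cases Ip Ip_spec)
open Pool.Agent.H304R2.EC.A1 (prim prim_mul prim_cancel prim_one prim_norm_odd prim_star eq_one_of_prim
  norm_def' re_mul' im_mul' eq_of_dvd prim_ne_zero exists_prim)
open Pool.Agent.H304R3.HK (tc HC LH)
open Pool.Agent.Y715.Z (em0 em0_ne)

/-- all the parts -/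
structure PartsX : Prop where
  kxx : S_KXX
  unx : S_UNX
  lix : S_LIX
  erx : S_ERX
  phx : S_PHX
  mgx : S_MGX
  dtx : S_DTX
  hcx : S_HCX
  lhx : S_LHX
  rex : S_REX
  sqx : S_SQX
  lf : S_LF
  fin : S_FIN

lemma tc_powX (a : ZI) (n : ℕ) : tc (a ^ n) = tc a ^ n := by
  induction n with
  | zero => rw [pow_zero, pow_zero, tc_one]
  | succ n ih => rw [pow_succ, pow_succ, tc_mul, ih]

lemma im1_pow_norm (k : ℕ) : (im1 ^ k : ZI).norm = 1 := by
  induction k with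
  | zero => simp
  | succ k ih => rw [pow_succ, Zsqrtd.norm_mul, ih, im1_norm, one_mul]

lemma im1_pow_unit (k : ℕ) : IsUnit (im1 ^ k : ZI) :=
  (IsUnit.of_mul_eq_one (-im1) (by decide : im1 * -im1 = 1)).pow k

lemma im1_pow_ne (k : ℕ) : (im1 ^ k : ZI) ≠ 0 := (im1_pow_unit k).ne_zero

lemma ue_odd {k : ℕ} (hk : k % 2 = 1) : ue (im1 ^ k) = 1 := by
  have h : k % 4 = 1 ∨ k % 4 = 3 := by omega
  unfold ue
  rcases h with h | h
  · rw [unit_pow_mod im1_norm (n := 1) (by rw [h]), pow_one, if_neg (by decide)]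
  · rw [unit_pow_mod im1_norm (n := 3) (by rw [h]), if_neg (by decide)]

variable {ι : Type} [DecidableEq ι] {pr : ι → ZI}

/-- the data: `O` the primes with odd exponents -/
structure DaX (pr : ι → ZI) (V O : Finset ι) (e : ι → ℕ) (k : ℕ) : Prop where
  pf : PF pr
  sub : O ⊆ V
  kod : k % 2 = 1
  ker : ∀ z : ι → ZMod 2, (∀ v ∈ O, ∑ u ∈ O, em pr u v * (z u + z v) + wt pr v * z v = 0) →
      ∀ v ∈ O, z v = 0
  non : ∀ i ∈ V \ O, ∀ x : ZI, ¬ pr i ∣ x ^ 2 - im1 ^ k * DD pr O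
  par : ∀ i ∈ V, e i % 2 = 1 ↔ i ∈ O

section

variable [Fintype ι] {V O : Finset ι} {e : ι → ℕ} {k : ℕ}

lemma DaX.od (H : DaX pr V O e k) : Od V e = O := by
  ext i
  unfold Od
  rw [Finset.mem_filter]
  exact ⟨fun h' => (H.par i h'.1).1 h'.2, fun h' => ⟨H.sub h', (H.par i (H.sub h')).2 h'⟩⟩

lemma DaX.res (H : DaX pr V O e k) : ∀ i ∈ V \ O, wt pr i + ∑ u ∈ O, em pr u i = 1 := by
  intro i hi
  have hiO : i ∉ O := (Finset.mem_sdiff.1 hi).2
  have h1 : qr (pr i) (im1 ^ k * DD pr O) = -1 := by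
    unfold qr
    rw [if_neg, if_neg]
    · rintro ⟨b, hb⟩
      apply H.non i hi b
      have e1 : b ^ 2 - im1 ^ k * DD pr O = -(im1 ^ k * DD pr O - b ^ 2) := by ring
      rw [e1, dvd_neg]
      exact hb
    · intro h
      exact Pool.Agent.L7h3.MQ.DD_dvd H.pf hiO (((im1_pow_unit k).dvd_mul_left).1 h)
  rw [qr_mul (H.pf.pp i), qr_unit_sg H.pf i (im1_pow_norm k), ue_odd H.kod, one_mul,
    qr_DD_sg H.pf O hiO, ← sg_add] at h1
  have hsg : ∀ a : ZMod 2, sg a = -1 → a = 1 := by decide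
  exact hsg _ h1

lemma DaX.tx (H : DaX pr V O e k) (hD : S_DTX) : TX pr V (Od V e) = 1 := by
  unfold TX
  rw [H.od, Ff.det_MM (wt pr) (em pr) H.sub,
    hD ι (wt pr) (em pr) (em_self H.pf) (em_symm H.pf) O H.ker, one_mul]
  refine Finset.prod_eq_one fun i hi => ?_
  unfold Ff.dg
  exact H.res i hi

lemma DaX.exists_r (H : DaX pr V O e k) (hV : V.Nonempty) : ∃ r ∈ V, wt pr r = 1 := by
  have h01 : ∀ a : ZMod 2, a ≠ 1 → a = 0 := by decide
  by_cases hO : O.Nonempty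
  · by_contra hcon
    push Not at hcon
    obtain ⟨r, hr⟩ := hO
    have h1 := H.ker (fun _ => 1) (fun v hv => by
      rw [h01 _ (hcon v (H.sub hv)), zero_mul, add_zero]
      refine Finset.sum_eq_zero fun u _ => ?_
      have : (1 : ZMod 2) + 1 = 0 := by decide
      rw [this, mul_zero]) r hr
    exact one_ne_zero h1
  · rw [Finset.not_nonempty_iff_eq_empty] at hO
    obtain ⟨i, hi⟩ := hV
    refine ⟨i, hi, ?_⟩
    have h1 := H.res i (by rw [hO, Finset.sdiff_empty]; exact hi)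
    rwa [hO, Finset.sum_empty, add_zero] at h1

lemma gX_per (L : PeriodPair) (e κ ε : ℂ) (w : ℕ) {x y : ℂ} (h : x - y ∈ L.lattice) :
    gX L e κ ε w x = gX L e κ ε w y := by
  unfold gX s0 s1 s2
  rw [wp_per L h, wp'_per L h]

lemma s0_I {L : PeriodPair} {Ω : ℂ} (hL : IsLat L RG Ω) (x : ℂ) : s0 L (I * x) = -I * s0 L x := by
  unfold s0
  rw [wp_I hL, wp'_I hL, neg_sq]
  by_cases h : ℘'[L] x = 0
  · rw [h]; simp
  · field_simp
    linear_combination (℘[L] x ^ 2 + 1) * I_sq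

lemma s1_I {L : PeriodPair} {Ω : ℂ} (hL : IsLat L RG Ω) (e x : ℂ) : s1 L e (I * x) = -I * s2 L e x := by
  unfold s1 s2
  rw [wp_I hL, wp'_I hL, neg_sq]
  by_cases h : ℘'[L] x = 0
  · rw [h]; simp
  · field_simp
    linear_combination (℘[L] x ^ 2 - 2 * e * ℘[L] x - 1) * I_sq

lemma s2_I {L : PeriodPair} {Ω : ℂ} (hL : IsLat L RG Ω) (e x : ℂ) : s2 L e (I * x) = -I * s1 L e x := by
  unfold s1 s2
  rw [wp_I hL, wp'_I hL, neg_sq]
  by_cases h : ℘'[L] x = 0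
  · rw [h]; simp
  · field_simp
    linear_combination (℘[L] x ^ 2 + 2 * e * ℘[L] x - 1) * I_sq

lemma gX_I {L : PeriodPair} {Ω : ℂ} (hL : IsLat L RG Ω) (e κ ε : ℂ) {w : ℕ} (hw : w < 4) (x : ℂ) :
    gX L e κ ε w (I * x) = (-I) ^ w * gX L e κ ε w x := by
  have hs : (-I * s0 L x) ^ 2 = -(s0 L x ^ 2) := by linear_combination (s0 L x ^ 2) * I_sq
  have hs4 : (-I * s0 L x) ^ 4 = s0 L x ^ 4 := by
    have e1 : (-I * s0 L x) ^ 4 = ((-I * s0 L x) ^ 2) ^ 2 := by ring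
    rw [e1, hs]; ring
  have hd1 : s0 L x ^ 4 - 2 * e * -(s0 L x ^ 2) - 1 = s0 L x ^ 4 + 2 * e * s0 L x ^ 2 - 1 := by ring
  have hd2 : s0 L x ^ 4 + 2 * e * -(s0 L x ^ 2) - 1 = s0 L x ^ 4 - 2 * e * s0 L x ^ 2 - 1 := by ring
  unfold gX
  rw [s0_I hL, s1_I hL, s2_I hL, hs, hs4, hd1, hd2]
  generalize s0 L x ^ 4 + 2 * e * s0 L x ^ 2 - 1 = q2
  generalize s0 L x ^ 4 - 2 * e * s0 L x ^ 2 - 1 = q1
  have hI2 : (-I : ℂ) ^ 2 = -1 := by rw [neg_sq, I_sq]
  have hI3 : (-I : ℂ) ^ 3 = I := by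
    have : (-I : ℂ) ^ 3 = (-I) ^ 2 * (-I) := by ring
    rw [this, hI2]; ring
  obtain rfl | rfl | rfl | rfl : w = 0 ∨ w = 1 ∨ w = 2 ∨ w = 3 := by omega
  · have : sgw 0 = 1 := by unfold sgw; rw [if_pos (Or.inl rfl)]
    rw [if_neg (by norm_num), if_neg (by norm_num), this, pow_zero]
    linear_combination (κ * s0 L x * (s2 L e x * (s0 L x ^ 2 - ε) / q1 +
      s1 L e x * (s0 L x ^ 2 + ε) / q2)) * (-I_sq)
  · have : sgw 1 = -1 := by unfold sgw; rw [if_neg (by norm_num)]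
    rw [if_pos (by norm_num), if_pos (by norm_num), this, pow_one]
    ring
  · have : sgw 2 = -1 := by unfold sgw; rw [if_neg (by norm_num)]
    rw [if_neg (by norm_num), if_neg (by norm_num), this, hI2]
    linear_combination (κ * s0 L x * (s2 L e x * (s0 L x ^ 2 - ε) / q1 -
      s1 L e x * (s0 L x ^ 2 + ε) / q2)) * (I_sq)
  · have : sgw 3 = 1 := by unfold sgw; rw [if_pos (Or.inr rfl)]
    rw [if_pos (by norm_num), if_pos (by norm_num), this, hI3]
    ring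

/-- the central values are not zero -/
theorem LH_x (P : PartsX) (H : DaX pr V O e k) {k' : ℕ} (hk' : k' % 2 = 1)
    (h4 : ∀ i ∈ V, e i % 4 ≠ 0) : LH (XXx H.pf k' V e) (1 / 2) ≠ 0 := by
  obtain ⟨L, Ω, hGL⟩ := exists_lat
  have hfin := H385.he1_finite (DD_ne H.pf V)
  let _ := Fintype.ofFinite (RQ (DD pr V))
  have hw4 : Wt pr V e % 4 < 4 := Nat.mod_lt _ (by norm_num)
  obtain ⟨c, κ, ε, hK⟩ := P.kxx L Ω hGL (Wt pr V e % 4) hw4 k' hk'
  rw [P.lhx ι pr H.pf V e k' hk' h4 _ (P.lix L Ω hGL _ k' c κ ε hk' hK ι pr H.pf V e rfl)]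
  refine (map_ne_zero _).2 ?_
  have hal : tc (al (DD pr V)) ≠ 0 := tc_ne (im1_pow_ne _)
  have hκ : κ ≠ 0 := by
    rintro rfl
    have := hK.k2
    norm_num at this
  refine mul_ne_zero (mul_ne_zero (pow_ne_zero _ hal) (div_ne_zero (mul_ne_zero hGL.lat.ne hK.c0)
    (mul_ne_zero two_ne_zero (tc_ne (DD_ne H.pf V))))) ?_
  unfold MX
  by_cases hV : V = ∅
  · rw [if_pos hV]
    exact div_ne_zero hκ two_ne_zero
  · rw [if_neg hV]
    have hVn := Finset.nonempty_iff_ne_empty.2 hV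
    obtain ⟨B, hB⟩ := exists_val
    have c1 := P.mgx L Ω hGL _ B.valuation hB ι pr H.pf (Wt pr V e % 4) hw4 8 ?_
      (gX L (℘[L] (Ω / 2)) κ ε (Wt pr V e % 4)) (fun x y h => gX_per L _ _ _ _ h)
      (fun x => gX_I hGL.lat _ _ _ hw4 x)
      (fun x hx => P.unx L Ω hGL _ B.valuation hB x hx κ ε hK.k2 hK.e2 _)
      (fun V e i => (tc (al (pr i)) ^ k')⁻¹ * tc (pr i) - tc (c4 pr V e (pr i))) ?_ ?_ V e
      (H.exists_r hVn) rfl
    · rw [H.tx P.dtx, uu_one] at c1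
      intro h0
      rw [h0, zero_div] at c1
      have := c1.s
      rw [zero_sub, Valuation.map_neg, map_one] at this
      exact absurd this (lt_irrefl _)
    · intro i h
      have e1 : (8 : ZI) = 2 * 4 := by decide
      rw [e1] at h
      rcases (H.pf.pp i).pr.dvd_or_dvd h with h | h
      · exact not_dvd_two (H.pf.pp i) h
      · exact pr_ndvd_four H.pf i h
    · intro V' e' i hi hei hne hW _ _
      have h5 := P.erx L Ω hGL _ k' c κ ε hk' hK ι pr H.pf V' e' i hi hei hW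
      unfold MX at h5
      rwa [if_neg (Finset.nonempty_iff_ne_empty.1 ⟨i, hi⟩),
        if_neg (Finset.nonempty_iff_ne_empty.1 hne)] at h5
    · intro V' e' i hi _
      exact P.phx _ B.valuation hB ι pr H.pf V' e' i k' hk' hi

end

section field

variable {K : Type} [Field K] [NumberField K] (e : ZI ≃+* 𝓞 K)

variable [Fintype ι] {V O : Finset ι} {ex : ι → ℕ} {k : ℕ}

/-- the points -/
theorem pts_x (P : PartsX) (H : DaX pr V O ex k) :
    Finite (Pool.Agent.Y715.Z.q4 (em0 e (im1 ^ k * DE pr V ex))).toAffine.Point := by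
  have hne : em0 e (im1 ^ k * DE pr V ex) ≠ 0 := em0_ne e (mul_ne_zero (im1_pow_ne k) (DE_ne H.pf V ex))
  have hDE := DE_eqR (pr := pr) V ex
  rw [H.od] at hDE
  have hT : ∀ ρ : ZI, Prime ρ → ρ ∣ TE pr V ex → ρ ∣ DD pr O ∨ ∀ x : ZI, ¬ ρ ∣ x ^ 2 - im1 ^ k * DD pr O := by
    intro ρ hρ h
    unfold TE at h
    obtain ⟨i, hi, h1⟩ := (hρ.dvd_finsetProd_iff _).1 h
    have h2 : ρ ∣ pr i := hρ.dvd_of_dvd_pow h1
    by_cases hiO : i ∈ O
    · exact Or.inl (h2.trans (dvd_DD hiO))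
    · right
      intro w hw
      have h3 : Associated ρ (pr i) := hρ.associated_of_dvd (H.pf.pp i).pr h2
      exact H.non i (Finset.mem_sdiff.2 ⟨hi, hiO⟩) w (h3.symm.dvd.trans hw)
  have hj : (em0 e im1 : K) ^ 2 = -1 := by
    rw [← map_pow]
    have : (im1 : ZI) ^ 2 = -1 := by decide
    rw [this, map_neg, map_one]
  let _ : Algebra ZI K := ((algebraMap (𝓞 K) K).comp (e : ZI →+* 𝓞 K)).toAlgebra
  have _ : IsFractionRing ZI K := IsFractionRing.of_ringEquiv_left e (fun _ => rfl)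
  refine P.fin K _ hj _ hne ?_
  intro x y hy hxy
  rw [hDE] at hxy ⊢
  exact P.sqx K ι pr H.pf O k H.kod H.ker (TE pr V ex) (TE_ne H.pf V ex) hT x y hy hxy

/-- the `L`-series -/
theorem col_x (P : PartsX) (H : DaX pr V O ex k) (h4 : ∀ i ∈ V, ex i % 4 ≠ 0) :
    CoL (em0 e (im1 ^ k * DE pr V ex)) := by
  have hk' : (k + 2 + 2 * Wt pr V ex) % 2 = 1 := by have := H.kod; omega
  refine P.lf K e _ _ (P.hcx ι pr H.pf V ex _ hk' h4) (LH_x P H hk' h4) (im1 ^ k * DE pr V ex)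
    (mul_ne_zero (im1_pow_ne k) (DE_ne H.pf V ex)) ?_ ?_
  · intro z hz hzd
    have hzd' : ¬ z ∣ DE pr V ex := fun h => hzd (h.mul_left _)
    rw [P.rex (JJ_of e) ι pr H.pf V ex k z hz
      (Pool.Agent.L7h3.QD.good_primes h4 hzd'), XXx_apply, un_prim hz.prm, tc_one, one_mul, one_mul,
      tc_mul, tc_powX]
  · intro z hz hzd
    have hzd' : z ∣ DE pr V ex := ((im1_pow_unit k).dvd_mul_left).1 hzd
    obtain ⟨i, hi, hzi, m, h1, h2, h3⟩ := Pool.Agent.L7h3.QD.bad_primes H.pf h4 hz hzd'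
    refine ⟨?_, m, h1, h2.mul_left _, fun h => h3 (((im1_pow_unit k).dvd_mul_left).1 h)⟩
    rw [XXx_apply, un_prim hz.prm, one_mul, c4_zero ex hi (by rw [hzi]), tc_zero, mul_zero, map_zero,
      mul_zero]

/-- the reduction to exponents not divisible by four -/
lemma DaX.red (H : DaX pr V O ex k) : ∃ (V' : Finset ι) (T : ZI), DaX pr V' O ex k ∧
    (∀ i ∈ V', ex i % 4 ≠ 0) ∧ T ≠ 0 ∧ DE pr V ex = DE pr V' ex * T ^ 4 := by
  have hp := H.pf
  set V' := V.filter (fun i => ex i % 4 ≠ 0) with hV'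
  have hsub : V' ⊆ V := Finset.filter_subset _ _
  have hOV : O ⊆ V' := by
    intro i hi
    rw [hV', Finset.mem_filter]
    have := (H.par i (H.sub hi)).2 hi
    exact ⟨H.sub hi, by omega⟩
  refine ⟨V', ∏ i ∈ V.filter (fun i => ¬ ex i % 4 ≠ 0), pr i ^ (ex i / 4), ⟨hp, hOV, H.kod, H.ker,
    fun i hi => H.non i (Finset.mem_sdiff.2 ⟨hsub (Finset.mem_sdiff.1 hi).1, (Finset.mem_sdiff.1 hi).2⟩),
    fun i hi => H.par i (hsub hi)⟩, fun i hi => (Finset.mem_filter.1 hi).2,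
    Finset.prod_ne_zero_iff.2 fun i _ => pow_ne_zero _ (hp.pp i).ne, ?_⟩
  have h1 : (∏ i ∈ V.filter (fun i => ¬ ex i % 4 ≠ 0), pr i ^ (ex i / 4)) ^ 4 =
      ∏ i ∈ V.filter (fun i => ¬ ex i % 4 ≠ 0), pr i ^ ex i := by
    rw [← Finset.prod_pow]
    refine Finset.prod_congr rfl fun i hi => ?_
    have h3 := (Finset.mem_filter.1 hi).2
    rw [← pow_mul]
    congr 1
    omega
  rw [h1]
  unfold DE
  rw [hV', Finset.prod_filter_mul_prod_filter_not]

theorem co2_x (P : PartsX) (H : DaX pr V O ex k) : Co2 (em0 e (im1 ^ k * DE pr V ex)) := by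
  obtain ⟨V', T, H', h4, hT, hDE⟩ := H.red
  have h1 : Co2 (em0 e (im1 ^ k * DE pr V' ex)) := ⟨pts_x e P H', col_x e P H' h4⟩
  have e1 : im1 ^ k * DE pr V ex = (im1 ^ k * DE pr V' ex) * T ^ 4 := by rw [hDE]; ring
  rw [e1, map_mul, map_pow]
  exact co2_scale (em0_ne e (mul_ne_zero (im1_pow_ne k) (DE_ne H'.pf V' ex))) (em0_ne e hT) h1

end field

end Pool.Agent.L7h3.QX
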