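import Pool.Agent.L7h3.QD.Asm

/-!
# Project QX (helper3): the curves `y² = x³ + i^k D₀ x`, `k` odd

`K = ℚ(i)`, `D₀` any primary (`= 1 mod 2 + 2i`) element. Together with project QD (`k` even,
`N(D₀) = 5 mod 8`) this gives all `y² = x³ - D x`, `D` odd squarefree, `D` not `± 1` modulo `4` (three
quarters of all odd `D`). Notation as in `L7h3/QD/Stm.lean` (project QD is the model for all parts):
`pr : ι → ZI` a family of distinct primary primes (`PF pr`), `DD pr V = ∏ i ∈ V, pr i`,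
`c4 pr V e a = ∏ i ∈ V, (a / pr i)_4 ^ e i`, `wq π = (N π - 1) / 4`, `Wt pr V e = ∑ e i * wq (pr i)`.

The Hecke character has conductor `8 D₀`: on primary elements it is the conjugate of
`al a ^ k * c4 a`, `al a = i^((N a - 1)/4)`.
-/

set_option autoImplicit false
set_option linter.unusedVariables false
set_option linter.unusedSectionVars false

open NumberField IsDedekindDomain
open Filter Complex
open scoped Topology PeriodPair Classical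

namespace Pool.Agent.L7h3.QX

open Pool.Agent.Y699
open Pool.Agent.TH936.CM
open Pool.Agent.L7h3.MQ (DE TE Fac)
open Pool.Agent.L7h3.QD (MG CoL Co2)
open H385 (ZI RQ im1 nrm)
open Pool.Agent.W164.RC (tc_mul tc_star two2 prim_iff_dvd unit_norm unit_cases)
open Pool.Agent.H304R2.EC.A1 (prim prim_mul prim_cancel prim_one prim_norm_odd prim_star eq_one_of_prim
  norm_def' re_mul' im_mul' eq_of_dvd prim_ne_zero exists_prim)
open Pool.Agent.H304R3.HK (tc HC LH)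

/-! ## The function on the division points -/

/-- `s0 z ^ 2 = ℘ (2 z)` (as `℘'² = 4 ℘³ - 4 ℘`) -/
noncomputable def s0 (L : PeriodPair) (z : ℂ) : ℂ := (℘[L] z ^ 2 + 1) / ℘'[L] z

/-- `s1 z ^ 2 = ℘ (2 z) + e`, `e = ℘ (Ω / 2)`, `e ^ 2 = 1` -/
noncomputable def s1 (L : PeriodPair) (e : ℂ) (z : ℂ) : ℂ :=
  (℘[L] z ^ 2 + 2 * e * ℘[L] z - 1) / ℘'[L] z

/-- `s2 z ^ 2 = ℘ (2 z) - e` -/
noncomputable def s2 (L : PeriodPair) (e : ℂ) (z : ℂ) : ℂ :=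
  (℘[L] z ^ 2 - 2 * e * ℘[L] z - 1) / ℘'[L] z

/-- the sign -/
def sgw (w : ℕ) : ℂ := if w = 0 ∨ w = 3 then 1 else -1

/-- the function; `κ² = 2`, `ε² = -1`, `e = ℘ (Ω / 2)`, `x = ℘ (2 z) = s0 z ^ 2`. The value at the lattice
points (used only for `w = 0` and `V = ∅`) is the limit. -/
noncomputable def gX (L : PeriodPair) (e κ ε : ℂ) (w : ℕ) (z : ℂ) : ℂ :=
  if w % 2 = 1 then
    κ * (s1 L e z * (s0 L z ^ 2 - ε) / (s0 L z ^ 4 - 2 * e * s0 L z ^ 2 - 1) +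
      sgw w * (s2 L e z * (s0 L z ^ 2 + ε) / (s0 L z ^ 4 + 2 * e * s0 L z ^ 2 - 1)))
  else
    κ * s0 L z * (s2 L e z * (s0 L z ^ 2 - ε) / (s0 L z ^ 4 - 2 * e * s0 L z ^ 2 - 1) +
      sgw w * (s1 L e z * (s0 L z ^ 2 + ε) / (s0 L z ^ 4 + 2 * e * s0 L z ^ 2 - 1)))

/-- the combination over the points of order two, `ψ (Ω/2) = -1`, `ψ (I Ω/2) = 1` -/
noncomputable def FE (Ω : ℂ) (δ : ℝ) (z : ℂ) : ℂ :=
  EG Ω δ z + EG Ω δ (z + I * (Ω / 2)) - EG Ω δ (z + Ω / 2) - EG Ω δ (z + (1 + I) * (Ω / 2))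

/-- the combination at the points of order eight -/
noncomputable def GE (Ω : ℂ) (k : ℕ) (δ : ℝ) (z : ℂ) : ℂ :=
  FE Ω δ (Ω / 8 + z) + I ^ (3 * k) * FE Ω δ ((3 + 2 * I) * (Ω / 8) + z)

/-- QX-FEX: if `8 z` is not in the lattice or `z` is a point of order eight (it is only necessary that
`z` and the `z + T`, `2 T = 0`, are not in the lattice, i.e. `2 z` is not in the lattice): the limit of
`FE`. Proof: `EG (z + T) = EG (z - T)` for half periods (`EG_per`), so `lim_Dd` gives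
`EG (z + T) - EG z → 1/2 ℘' z / (℘ z - ℘ T)`; the sum with signs is
`1/2 ℘' (1/(℘ + e) - 1/(℘ - e) - 1/℘) = -1/2 ℘' (℘² + 2 e ℘ - 1) / (℘ (℘² - 1))` and
`℘'² = 4 ℘ (℘² - 1)`. (`℘ (Ω/2) = e`, `℘ (I Ω/2) = - e`, `℘ ((1+I) Ω/2) = 0`.) Model: `lim_A` in
`Y699/Qn.lean`. -/
def S_FEX : Prop := ∀ (L : PeriodPair) (Ω : ℂ), GLat L Ω → ∀ z : ℂ, 2 * z ∉ L.lattice →
  Tendsto (fun δ : ℝ => FE Ω δ z) (𝓝[>] 0) (𝓝 (-2 * s1 L (℘[L] (Ω / 2)) z))

/-- QX-ADX: the addition formula. Let `2 z`, `2 t`, `2 (z + t)`, `2 (z - t)` be no lattice points. As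
`EG (x + t) + EG (x - t) - 2 EG x → Dd x t = ℘' x / (℘ x - ℘ t)` (`lim_Dd`) for `x = z + T`, the limit is
`2 · (-2 s1 z) + ∑_T ψ(T) Dd (z + T) t`, and `℘ (z + Ω/2) = (e ℘ + 1)/(℘ - e)`,
`℘ (z + I Ω/2) = (1 - e ℘)/(℘ + e)`, `℘ (z + (1+I) Ω/2) = -1/℘` (with the derivatives
`-2 ℘'/(℘ - e)²`, `-2 ℘'/(℘ + e)²`, `℘'/℘²`). The rest is an identity of rational functions in
`a = ℘ z`, `b = ℘ t`, `e` with `e² = 1`, multiplied by `℘' z`. (Checked numerically.) -/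
def S_ADX : Prop := ∀ (L : PeriodPair) (Ω : ℂ), GLat L Ω → ∀ z t : ℂ, 2 * z ∉ L.lattice →
  2 * t ∉ L.lattice → 2 * (z + t) ∉ L.lattice → 2 * (z - t) ∉ L.lattice →
  s0 L t ^ 2 - s0 L z ^ 2 ≠ 0 ∧
  Tendsto (fun δ : ℝ => FE Ω δ (z + t) + FE Ω δ (z - t)) (𝓝[>] 0)
    (𝓝 (-4 * s1 L (℘[L] (Ω / 2)) z * (s0 L t * s2 L (℘[L] (Ω / 2)) t) / (s0 L t ^ 2 - s0 L z ^ 2)))

/-- the properties of the constants. In `lim` the function `GE` is averaged over the units with the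
weight `I ^ w`. -/
structure KX (L : PeriodPair) (Ω : ℂ) (w k : ℕ) (c κ ε : ℂ) : Prop where
  c0 : c ≠ 0
  k2 : κ ^ 2 = 2
  e2 : ε ^ 2 = -1
  lim : ∀ z : ℂ, OT L z → Tendsto (fun δ : ℝ => 1 / 4 * (GE Ω k δ z + I ^ w * GE Ω k δ (I * z) +
    I ^ (2 * w) * GE Ω k δ (-z) + I ^ (3 * w) * GE Ω k δ (-(I * z)))) (𝓝[>] 0)
    (𝓝 (c * gX L (℘[L] (Ω / 2)) κ ε w z))
  emp : w = 0 → Tendsto (fun δ : ℝ => GE Ω k δ 0) (𝓝[>] 0) (𝓝 (2 * c * κ))

/-- QX-KXX (from `S_FEX`, `S_ADX`): existence of the constants. (All constants were checked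
numerically.) Put `τ = Ω/8`, `τ' = (3 + 2I) Ω/8`, `e = ℘ (Ω/2)`, `p = ℘ (Ω/4)`, `p² = 2 e p + 1`,
`℘ (2 τ') = -1/p` (`QD.S_QPT`, proved: `Pool.Agent.L7h76.QD.t_QPT`), `x = ℘ (2 z) = s0 z ^ 2`,
`q1 = x² - 2 e x - 1 = (p - x)(-1/p - x)`, `q2 = x² + 2 e x - 1 = (x + p)(x - 1/p)`.

`EG`, hence `FE`, is odd. `w` odd: by `S_ADX` (with `z` and `± τ`, then with `I z`)
the average is `-s1 z (A/(p-x) + B/(-1/p-x)) - I^w s1 (I z) (A/(p+x) + B/(-1/p+x))` with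
`A = s0 τ * s2 τ`, `B = I^(3k) s0 τ' * s2 τ'`; `A² = p(p - e)`, `B² = -A²/p²`, so
`B = ε A/p` for some `ε² = -1` and `A/(p-x) + B/(-1/p-x) = -(A+B)(x - ε)/q1`,
`A/(p+x) + B/(-1/p+x) = (A+B)(x + ε)/q2`, `s1 (I z) = - I s2 z`; `c = (A + B)/κ`.
`w` even: with the roles of `z` and `τ` exchanged, `A = s1 τ`, `B = I^(3k) s1 τ'`, `A² = p + e`,
`B² = -A²/p²`: the average is
`-s0 z s2 z (A/(x-p) + B/(x+1/p)) - I^w s0 (I z) s2 (I z) (A/(-x-p) + B/(-x+1/p))`, and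
`s0 (I z) = - I s0 z`, `s2 (I z) = - I s1 z`; `c = -(A + B)/κ`. `emp`: by `S_FEX` the limit is
`-2 (s1 τ + I^(3k) s1 τ') = -2 (A + B)`. `c ≠ 0`: `A ≠ 0` and `1 + ε/p ≠ 0`, because `p² ≠ -1`. -/
def S_KXX : Prop := ∀ (L : PeriodPair) (Ω : ℂ), GLat L Ω → ∀ w : ℕ, w < 4 → ∀ k : ℕ, k % 2 = 1 →
  ∃ c κ ε : ℂ, KX L Ω w k c κ ε

/-- QX-UNX: the values at the odd torsion points are congruent to one. Model: `hh_cg` in
`Y699/Qv.lean` and `Pool/Agent/L7h76/QD/UN.lean`. Let `x = ℘ (2 z) = s0 z ^ 2`, `u = ℘ ((1+I) 2 z)`,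
`u' = ℘ ((1+I)² 2 z)`: `x² - 1 = 2 I x u`, `u² - 1 = 2 I u u'` (`GLat.mul_pi`), hence
`x² + 1 = 2 (1 + I x u)`, `q1 q2 = (x²-1)² - 4 x² = -8 x² (1 + I u u')`. With `m = x² - 1`,
`(x - ε)² = m - 2 ε x`, `(x + ε)² = m + 2 ε x`, `δ = I e ε = ± 1`:
`w` odd: `gX² = 2 [(x+e)(m - 2εx) q2² + (x-e)(m + 2εx) q1²]/(q1 q2)² + (cross term)`,
`(x+e)(m - 2εx) q2² + (x-e)(m + 2εx) q1² = 32 x³ u (u' (x u + δ) - (u + δ x))`; so the first part is
`u H/(x (1 + I u u')²)`, `H = u' (x u + δ) - (u + δ x)`. `w` even: the first part is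
`u H'/(1 + I u u')²`, `H' = u' (x u - δ) + (u - δ x)`. The cross term is
`4 sgw (s1 s2)(x² + 1)/(q1 q2)` (`w` odd; times `x` if `w` even), `(s1 s2)² = x² - 1 = 2 I x u`: its square
has valuation `< 1`. Write `x = 1 + (1+I) x₁` etc., `x₁, u₁, u₁' ≡ 1`: then `H/(1+I)² ≡ 1`,
`H'/(1+I)² ≡ 1` for both signs `δ`, `(1 + I u u')/(1+I) ≡ 1`; so `gX² ≡ 1`, and `gX ≡ 1`. -/
def S_UNX : Prop := ∀ (L : PeriodPair) (Ω : ℂ), GLat L Ω →
  ∀ (Γ : Type) [LinearOrderedCommGroupWithZero Γ] (v : Valuation ℂ Γ), v 2 < 1 →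
  ∀ z : ℂ, OT L z → ∀ κ ε : ℂ, κ ^ 2 = 2 → ε ^ 2 = -1 → ∀ w : ℕ,
    Cg v (gX L (℘[L] (Ω / 2)) κ ε w z) 1

/-! ## The values -/

/-- the values, with the right value for `V = ∅` -/
noncomputable def MX (L : PeriodPair) (Ω κ ε : ℂ) (w : ℕ) {ι : Type} (pr : ι → ZI) (V : Finset ι)
    (e : ι → ℕ) [Fintype (RQ (DD pr V))] : ℂ :=
  if V = ∅ then κ / 2 else MG (gX L (℘[L] (Ω / 2)) κ ε w) 8 Ω pr V e

/-- `i ^ ((N a - 1) / 4)` for primary `a` -/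
noncomputable def al (a : ZI) : ZI := im1 ^ wq a

/-- the twisted character on primary elements -/
noncomputable def ccx {ι : Type} (k : ℕ) (pr : ι → ZI) (V : Finset ι) (e : ι → ℕ) (a : ZI) : ℂ :=
  if prim a then tc (al a) ^ k * tc (c4 pr V e a) else 0

/-- QX-DIX (from `S_KXX`-data `KX`): the limit of the division sum. Average over the units as in
`L7h23/QD/Div.lean` (`F (im1 a) = I^w F a`, `z_(im1 a) = I z_a`), `lim` at the `z_q`, `¬ D ∣ q`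
(`zq_OT`). -/
def S_DIX : Prop := ∀ (L : PeriodPair) (Ω : ℂ), GLat L Ω → ∀ (w k : ℕ) (c κ ε : ℂ),
  KX L Ω w k c κ ε → ∀ D : ZI, prim D → ∀ [Fintype (RQ D)],
  ∀ F : ZI → ℂ, (∀ a b, D ∣ a - b → F a = F b) →
    (∀ a, F (im1 * a) = I ^ w * F a) → (∀ a, D ∣ a → F a = 0) →
  Tendsto (fun δ : ℝ => ∑ q : RQ D, F q.out * GE Ω k δ (zq Ω D q.out)) (𝓝[>] 0)
    (𝓝 (c * ∑ q : RQ D, F q.out * gX L (℘[L] (Ω / 2)) κ ε w (zq Ω D q.out)))

/-- QX-RSX: the regularized sum as a sum over the division points. Models: `RS_two`, `RS_cc4` in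
`Y699/Qm.lean`, `L7h23/QD/Rsd.lean`. The primary residue classes modulo `8` are `r + T`,
`r ∈ {1, 3 + 2i}`, `T ∈ {0, 4, 4i, 4 + 4i}`, `al (1 + T) = ψ(T)`, `al (3 + 2i + T) = im1^3 ψ(T)`, `ψ(4) = -1`,
`ψ(4 i) = 1`; `al` is multiplicative on primary elements and depends only on `a` modulo `8`;
`a = r D + 8 t`. -/
def S_RSX : Prop := ∀ (L : PeriodPair) (Ω : ℂ), IsLat L RG Ω → ∀ (ι : Type) [DecidableEq ι]
  (pr : ι → ZI), PF pr → ∀ (V : Finset ι) (e : ι → ℕ) (k : ℕ), k % 2 = 1 →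
  ∀ [Fintype (RQ (DD pr V))] (δ : ℝ), 0 < δ →
  RS (ccx k pr V e) δ = tc (al (DD pr V)) ^ k * (Ω / (8 * tc (DD pr V))) *
    ∑ q : RQ (DD pr V), tc (c4 pr V e (8 * q.out)) *
      GE Ω k (δ * Complex.normSq (8 * tc (DD pr V) / Ω)) (zq Ω (DD pr V) q.out)

/-- QX-LIX (from `S_DIX`, `S_RSX`; model `lim_cc4` in `Y699/Qn.lean`; for `V = ∅` use `KX.emp`) -/
def S_LIX : Prop := ∀ (L : PeriodPair) (Ω : ℂ), GLat L Ω → ∀ (w k : ℕ) (c κ ε : ℂ), k % 2 = 1 →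
  KX L Ω w k c κ ε → ∀ (ι : Type) [DecidableEq ι] (pr : ι → ZI), PF pr →
  ∀ (V : Finset ι) (e : ι → ℕ), Wt pr V e % 4 = w → ∀ [Fintype (RQ (DD pr V))],
  Tendsto (RS (ccx k pr V e)) (𝓝[>] 0)
    (𝓝 (tc (al (DD pr V)) ^ k * (Ω * c / (2 * tc (DD pr V))) * MX L Ω κ ε w pr V e))

/-- QX-ERX (from `S_LIX`): a vanishing exponent. Models: `M4_erase` in `Y699/Qv.lean`,
`L7h23/QD/Erd.lean`. -/
def S_ERX : Prop := ∀ (L : PeriodPair) (Ω : ℂ), GLat L Ω → ∀ (w k : ℕ) (c κ ε : ℂ), k % 2 = 1 →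
  KX L Ω w k c κ ε → ∀ (ι : Type) [DecidableEq ι] (pr : ι → ZI), PF pr →
  ∀ (V : Finset ι) (e : ι → ℕ) (i : ι), i ∈ V → e i = 0 → Wt pr V e % 4 = w →
  ∀ [Fintype (RQ (DD pr V))] [Fintype (RQ (DD pr (V.erase i)))],
  MX L Ω κ ε w pr V e = MX L Ω κ ε w pr (V.erase i) e *
    ((tc (al (pr i)) ^ k)⁻¹ * tc (pr i) - tc (c4 pr (V.erase i) e (pr i)))

/-- QX-PHX: the factor. Models: `fac4_cg` in `Y699/Qv.lean` (can be used: the difference is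
`((al ^ k)⁻¹ - 1) π / (1 + I)`, congruent to one exactly if `wq π` is odd), `t_PHD` in
`L7h23/QD`. -/
def S_PHX : Prop := ∀ (Γ : Type) [LinearOrderedCommGroupWithZero Γ] (v : Valuation ℂ Γ), v 2 < 1 →
  ∀ (ι : Type) [Fintype ι] [DecidableEq ι] (pr : ι → ZI), PF pr → ∀ (V : Finset ι) (e : ι → ℕ) (i : ι)
    (k : ℕ), k % 2 = 1 → i ∉ V →
  Cg v (((tc (al (pr i)) ^ k)⁻¹ * tc (pr i) - tc (c4 pr V e (pr i))) / (1 + I))
    (uu (wt pr i + ∑ u ∈ Od V e, em pr u i))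

/-! ## The main congruence -/

/-- the target: determinant of the reduced Laplacian -/
noncomputable def TX {ι : Type} [Fintype ι] [DecidableEq ι] (pr : ι → ZI) (V O : Finset ι) : ZMod 2 :=
  (Ff.MM (wt pr) (em pr) V O).det

/-- QX-PAR: the identity for the determinants. By `Ff.sum_det` it is enough to show
`∑_O (∑_{r ∈ O} x r) det (MM x e V O) = 0`. For `r ∈ V` consider the symmetric graph `ê` on `Option ι` with
`ê none v = x v`. `Ff.sum_tau` for `ê`, root `r`, vertex set `V ∪ {none}` says (the sets `S` with `none ∈ S`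
give the terms `det (MM x e V O)`, `r ∈ O`, because `tau ê r S = tau ê none S` (independence of
the root for symmetric `e`, to be proved: all principal cofactors of a symmetric matrix with zero row
sums are equal), and `Ff.det_MM`):
`∑_{O ∋ r} det (MM x e V O) = ∑_{S ∋ r, S ⊆ V} tau e r S * (∏_{v ∈ V \ S} ∑_{u ∈ S} e u v) * (∑_{u ∈ S} x u)`.
Multiply by `x r`, sum over `r`: as `tau e r S = T_S` does not depend on `r ∈ S`, the result is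
`∑_S (∑_{u ∈ S} x u)² T_S ∏ = ∑_S ell x e S ∏ = 0` by `Ff.sum_ell` (`a² = a` in `ZMod 2`). -/
def S_PAR : Prop := ∀ (ι : Type) [Fintype ι] [DecidableEq ι] (x : ι → ZMod 2) (e : ι → ι → ZMod 2),
  (∀ v, e v v = 0) → (∀ u v, e u v = e v u) → ∀ V : Finset ι, 2 ≤ V.card → ∀ c : ZMod 2,
  ∑ O ∈ V.powerset.filter (fun O => ∑ i ∈ O, x i = c), (Ff.MM x e V O).det = 0

/-- QX-DTX: trivial kernel. Model: `Ff.tau_one` in `Y699/Ff.lean`. -/
def S_DTX : Prop := ∀ (ι : Type) [Fintype ι] [DecidableEq ι] (x : ι → ZMod 2) (e : ι → ι → ZMod 2),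
  (∀ v, e v v = 0) → (∀ u v, e u v = e v u) → ∀ V : Finset ι,
  (∀ z : ι → ZMod 2, (∀ v ∈ V, ∑ u ∈ V, e u v * (z u + z v) + x v * z v = 0) → ∀ v ∈ V, z v = 0) →
  (Ff.MM x e V V).det = 1

/-- QX-MGX (from `S_PAR`): the main congruence. Port of `MG_cg` in `L7h3/QD/Mgp.lean` (`s_MG`), with
`r` a fixed prime of `V` with `wt pr r = 1` (i.e. `wq (pr r)` odd): `w` is arbitrary now; when an
exponent vanishes only erase `i ≠ r` (in the relation `rel_exactc` the exponent of `r` may be zero);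
`|V| = 1`: `MG_single`, all exponents; the identity is `S_PAR` instead of `Ff.sum_ell_one`, with
the reindexing `Ff.sum_reindex` for both parities (`∑ i ∈ Od V e, wt pr i = (Wt pr V e : ZMod 2)`). -/
def S_MGX : Prop := ∀ (L : PeriodPair) (Ω : ℂ), GLat L Ω →
  ∀ (Γ : Type) [LinearOrderedCommGroupWithZero Γ] (v : Valuation ℂ Γ), v 2 < 1 →
  ∀ (ι : Type) [Fintype ι] [DecidableEq ι] (pr : ι → ZI), PF pr →
  ∀ w : ℕ, w < 4 → ∀ c : ZI, (∀ i, ¬ pr i ∣ c) →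
  ∀ g : ℂ → ℂ, (∀ x y : ℂ, x - y ∈ L.lattice → g x = g y) →
    (∀ x : ℂ, g (I * x) = (-I) ^ w * g x) → (∀ x : ℂ, OT L x → Cg v (g x) 1) →
  ∀ φ : Finset ι → (ι → ℕ) → ι → ℂ,
    (∀ (V : Finset ι) (e : ι → ℕ) (i : ι), i ∈ V → e i = 0 → (V.erase i).Nonempty → Wt pr V e % 4 = w →
      ∀ [Fintype (RQ (DD pr V))] [Fintype (RQ (DD pr (V.erase i)))],
      MG g c Ω pr V e = MG g c Ω pr (V.erase i) e * φ (V.erase i) e i) →
    (∀ (V : Finset ι) (e : ι → ℕ) (i : ι), i ∉ V → Wt pr V e % 4 = w →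
      Cg v (φ V e i / (1 + I)) (uu (wt pr i + ∑ u ∈ Od V e, em pr u i))) →
  ∀ (V : Finset ι) (e : ι → ℕ), (∃ r ∈ V, wt pr r = 1) → Wt pr V e % 4 = w →
    ∀ [Fintype (RQ (DD pr V))],
    Cg v (MG g c Ω pr V e / (1 + I) ^ (V.card - 1)) (uu (TX pr V (Od V e)))

/-! ## The Hecke character -/

variable {ι : Type} [DecidableEq ι] {pr : ι → ZI}

lemma wq_mul {a b : ZI} (ha : prim a) (hb : prim b) : (wq (a * b)) % 4 = (wq a + wq b) % 4 := by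
  have hn : ∀ z : ZI, prim z → nrm z % 4 = 1 := by
    intro z hz
    have h1 : ((nrm z : ℕ) : ℤ) = z.norm := by exact_mod_cast nrm_cast z
    obtain ⟨h2, h3⟩ := hz
    rw [norm_def'] at h1
    obtain ⟨y, hy⟩ : ∃ y, z.im = 2 * y := ⟨z.im / 2, by omega⟩
    obtain ⟨x, hx⟩ : ∃ x, z.re = 2 * x + 1 := ⟨z.re / 2, by omega⟩
    rw [hx, hy] at h1
    have h4 : ((nrm z : ℕ) : ℤ) = 1 + 4 * (x ^ 2 + x + y ^ 2) := by rw [h1]; ring
    omega
  have h1 := hn a ha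
  have h2 := hn b hb
  have h3 : nrm (a * b) = nrm a * nrm b := nrm_mul a b
  unfold wq
  obtain ⟨x, hx⟩ : ∃ x, nrm a = 4 * x + 1 := ⟨nrm a / 4, by omega⟩
  obtain ⟨y, hy⟩ : ∃ y, nrm b = 4 * y + 1 := ⟨nrm b / 4, by omega⟩
  have h4 : nrm (a * b) = 4 * (x + y + 4 * (x * y)) + 1 := by rw [h3, hx, hy]; ring
  rw [h4, hx, hy]
  omega

lemma al_mul {a b : ZI} (ha : prim a) (hb : prim b) : al (a * b) = al a * al b := by
  unfold al
  rw [← pow_add]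
  exact unit_pow_mod im1_norm (wq_mul ha hb)

lemma al_one : al 1 = 1 := by
  unfold al wq
  have : nrm (1 : ZI) / 4 = 0 := by decide
  rw [this, pow_zero]

/-- the character -/
noncomputable def XXx (hp : PF pr) (k : ℕ) (V : Finset ι) (e : ι → ℕ) : ZI →* ℂ where
  toFun a := tc (un a) * (starRingEnd ℂ) (tc (al (un a * a)) ^ k * tc (c4 pr V e (un a * a)))
  map_one' := by
    rw [un_prim prim_one, one_mul, c4_one hp, tc_one, al_one, tc_one]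
    simp
  map_mul' := by
    intro a b
    have e1 : un (a * b) * (a * b) = (un a * a) * (un b * b) := by rw [un_mul]; ring
    by_cases ha : a.norm % 2 = 1
    · by_cases hb : b.norm % 2 = 1
      · obtain ⟨u, hu⟩ := exists_Um ha
        obtain ⟨w, hw⟩ := exists_Um hb
        have h1 : prim (un a * a) := by rw [un_eq hu]; exact hu.2
        have h2 : prim (un b * b) := by rw [un_eq hw]; exact hw.2
        rw [e1, c4_mul hp, un_mul, al_mul h1 h2, tc_mul, tc_mul, tc_mul, mul_pow]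
        simp only [map_mul]
        ring
      · rw [un_mul, un_even hb, mul_zero, tc_zero]
        simp
    · rw [un_mul, un_even ha, zero_mul, tc_zero]
      simp

lemma XXx_apply (hp : PF pr) (k : ℕ) (V : Finset ι) (e : ι → ℕ) (a : ZI) :
    XXx hp k V e a = tc (un a) * (starRingEnd ℂ) (tc (al (un a * a)) ^ k * tc (c4 pr V e (un a * a))) :=
  rfl

/-- QX-HCX: the conductor is `8 D`. Models: `t_HCD` in `L7h32/QD/HC.lean`, `XX4_HC` in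
`Y699/Qc.lean`. For `prim`, case `d = D f` with `f` a proper divisor of `8`: use `a = 1 + (1+i)^5 D'`
with `D'` a suitable multiple of `D` (`al (1 + (1+i)^3 (2 i t)) = -1` for odd `t`). -/
def S_HCX : Prop := ∀ (ι : Type) [DecidableEq ι] (pr : ι → ZI) (hp : PF pr) (V : Finset ι) (e : ι → ℕ)
  (k : ℕ), k % 2 = 1 → (∀ i ∈ V, e i % 4 ≠ 0) → HC (8 * DD pr V) (XXx hp k V e)

/-- QX-LHX (from `S_HCX`): the central value is the conjugate of the limit. Models: `t_LHD` in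
`L7h32/QD/LHD.lean`, `sum_XX4`, `LH_eq4` in `Y699/Qm.lean`. -/
def S_LHX : Prop := ∀ (ι : Type) [DecidableEq ι] (pr : ι → ZI) (hp : PF pr) (V : Finset ι) (e : ι → ℕ)
  (k : ℕ), k % 2 = 1 → (∀ i ∈ V, e i % 4 ≠ 0) → ∀ l : ℂ, Tendsto (RS (ccx k pr V e)) (𝓝[>] 0) (𝓝 l) →
  LH (XXx hp k V e) (1 / 2) = (starRingEnd ℂ) l

/-- QX-REX: quartic reciprocity (models `L7h3/QD/Rec.lean`, `recE` in `L7h3/MQ/Ae.lean`); the unit:
`q4_unit`: `(im1 / z)_4 = im1 ^ wq z`. -/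
def S_REX : Prop := ∀ (J : JJ) (ι : Type) [DecidableEq ι] (pr : ι → ZI), PF pr →
  ∀ (V : Finset ι) (e : ι → ℕ) (k : ℕ) (z : ZI), PP z → (∀ i ∈ V, z ≠ pr i) →
  Pool.Agent.Y699.q4 z (-(im1 ^ k * DE pr V e)) = al z ^ (k + 2 + 2 * Wt pr V e) * c4 pr V e z

/-! ## The points -/

/-- QX-SQX: the classes of the abscissas. Models: `decompR`, `square_classR` in
`L7h3/MR/Ar.lean`, `local_condE` in `L7h3/MQ/Ad.lean`. As there `x = u DD_S (f/b)²`, `u` a unit, `S ⊆ V`,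
`f, b` coprime, and, with `C = V \ S`, `P = u DD_S`, `Q = im1^k u⁻¹ DD_C`:
`Y² = P f⁴ + Q (T b²)²`, `T` odd (a prime above two would violate the hypothesis on `T`, since
`1 + i` divides `1 - im1^k DD`).
At `1 + i`: if `f`, `b` are both odd, then `P f⁴ + Q (T b²)²` is `1 + i` times an odd element, because
`P Q = im1^k DD_V` is not `± 1` modulo `4` (`k` odd): impossible. If `b` is even, then
`P = ± 1` modulo `4`, i.e. `u = ± 1` and `∑_S wt = 0`; if `f` is even, then `Q = ± 1` modulo `4`. At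
`v ∈ C`, `P` is a square modulo `pr v`, at `v ∈ S`, `Q` is a square modulo `pr v`. In the first
case `z = 1_S` is in the kernel, so `S = ∅` and `x` is a square; in the second case `z = 1_C` is in
the kernel, so `C = ∅` and `x` is `B` times a square. -/
def S_SQX : Prop := ∀ (F : Type) [Field F] [Algebra ZI F] [IsFractionRing ZI F]
  (ι : Type) [Fintype ι] [DecidableEq ι] (pr : ι → ZI), PF pr → ∀ (V : Finset ι) (k : ℕ), k % 2 = 1 →
  (∀ z : ι → ZMod 2, (∀ v ∈ V, ∑ u ∈ V, em pr u v * (z u + z v) + wt pr v * z v = 0) →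
    ∀ v ∈ V, z v = 0) →
  ∀ T : ZI, T ≠ 0 → (∀ ρ : ZI, Prime ρ → ρ ∣ T → ρ ∣ DD pr V ∨ ∀ x : ZI, ¬ ρ ∣ x ^ 2 - im1 ^ k * DD pr V) →
  ∀ x y : F, y ≠ 0 → y ^ 2 = x ^ 3 + algebraMap ZI F (im1 ^ k * (DD pr V * T ^ 2)) * x →
    ∃ w : F, x = w ^ 2 ∨ x = algebraMap ZI F (im1 ^ k * (DD pr V * T ^ 2)) * w ^ 2

end Pool.Agent.L7h3.QX
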