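import Pool.Agent.L7h3.QX.Lf
import Pool.Agent.L7h3.QE.Eq

/-!
# Project QX: the case with an entire function
-/

set_option autoImplicit false
set_option linter.unusedSectionVars false

namespace Pool.Agent.L7h3.QX

open scoped Classical
open Finset
open Pool.Agent.Y699
open Pool.Agent.L7h3.QE (GoodE Cls goodE_iff Quart Quad Nr)
open H385 (ZI RQ im1 nrm)
open Pool.Agent.W164.RC (two2 prim_iff_dvd)
open Pool.Agent.H304R2.EC.A1 (prim prim_mul prim_cancel prim_one prim_norm_odd prim_star eq_one_of_prim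
  norm_def' re_mul' im_mul' eq_of_dvd prim_ne_zero exists_prim)

lemma four_of_two2 {d : ZI} (h : two2 ∣ d - 1) (h8 : d.norm % 8 = 1) : (4 : ZI) ∣ d - 1 := by
  obtain ⟨c, hc⟩ := h
  have h1 : d.re = 1 + 2 * (c.re - c.im) := by
    have := congrArg Zsqrtd.re hc
    unfold two2 at this
    simp only [Zsqrtd.re_sub, Zsqrtd.re_one, Zsqrtd.re_mul] at this
    linarith
  have h2 : d.im = 2 * (c.re + c.im) := by
    have := congrArg Zsqrtd.im hc
    unfold two2 at this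
    simp only [Zsqrtd.im_sub, Zsqrtd.im_one, Zsqrtd.im_mul] at this
    linarith
  rw [norm_def', h1, h2] at h8
  have h3 : (1 + 2 * (c.re - c.im)) ^ 2 + (2 * (c.re + c.im)) ^ 2 =
      1 + 4 * ((c.re - c.im) * (c.re - c.im + 1)) + 4 * (c.re + c.im) ^ 2 := by ring
  rw [h3] at h8
  obtain ⟨m, hm⟩ : ∃ m, (c.re - c.im) * (c.re - c.im + 1) = 2 * m := by
    obtain ⟨m, hm⟩ := Int.even_mul_succ_self (c.re - c.im)
    exact ⟨m, by rw [hm]; ring⟩
  rw [hm] at h8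
  rcases Int.even_or_odd (c.re + c.im) with ⟨a, ha⟩ | ⟨a, ha⟩
  · refine ⟨⟨a - c.im, a⟩, ?_⟩
    have e4 : (4 : ZI) = ⟨4, 0⟩ := by
      ext
      · rfl
      · rfl
    rw [e4]
    ext
    · simp only [Zsqrtd.re_sub, Zsqrtd.re_one, Zsqrtd.re_mul]
      rw [h1]
      linarith
    · simp only [Zsqrtd.im_sub, Zsqrtd.im_one, Zsqrtd.im_mul]
      rw [h2]
      linarith
  · exfalso
    rw [ha] at h8
    have h4 : 1 + 4 * (2 * m) + 4 * (2 * a + 1) ^ 2 = 5 + 8 * (m + 2 * a ^ 2 + 2 * a) := by ring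
    rw [h4] at h8
    omega

lemma norm8_of_prim {d : ZI} (h : prim d) : d.norm % 8 = 1 ∨ d.norm % 8 = 5 := by
  obtain ⟨h2, h3⟩ := h
  rw [norm_def']
  obtain ⟨y, hy⟩ : ∃ y, d.im = 2 * y := ⟨d.im / 2, by omega⟩
  obtain ⟨x, hx⟩ : ∃ x, d.re = 2 * x + 1 := ⟨d.re / 2, by omega⟩
  rw [hx, hy]
  obtain ⟨m, hm⟩ : ∃ m, x * (x + 1) = 2 * m := by
    obtain ⟨m, hm⟩ := Int.even_mul_succ_self x
    exact ⟨m, by rw [hm]; ring⟩
  have h1 : (2 * x + 1) ^ 2 + (2 * y) ^ 2 = 1 + 4 * (x * (x + 1)) + 4 * y ^ 2 := by ring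
  rw [h1, hm]
  rcases Int.even_or_odd y with ⟨a, ha⟩ | ⟨a, ha⟩
  · left
    rw [ha]
    have h4 : 1 + 4 * (2 * m) + 4 * (a + a) ^ 2 = 1 + 8 * (m + 2 * a ^ 2) := by ring
    rw [h4]
    omega
  · right
    rw [ha]
    have h4 : 1 + 4 * (2 * m) + 4 * (2 * a + 1) ^ 2 = 5 + 8 * (m + 2 * a ^ 2 + 2 * a) := by ring
    rw [h4]
    omega

/-- the smaller class -/
theorem good4_of_goodx {D : ZI} (h : GoodX D) (h1 : two2 ∣ D - 1) (h2 : D.norm % 16 = 13) :
    Good4 D := by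
  refine goodE_iff.1 ⟨⟨h.1.1, h1, h2⟩, ?_⟩
  intro d d' he hd c1 c2
  have hpD := (prim_iff_dvd D).2 h1
  have hpd := (prim_iff_dvd d).2 hd
  have hpd' : prim d' := by
    refine prim_cancel hpd ?_
    rw [← he]; exact hpD
  have hd' := (prim_iff_dvd d').1 hpd'
  have hn : d.norm * d'.norm = D.norm := by rw [he, Zsqrtd.norm_mul]
  rcases norm8_of_prim hpd with h3 | h3
  · left
    exact h.2 d d' he (four_of_two2 hd h3) c1 c2
  · rcases norm8_of_prim hpd' with h4 | h4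
    · right
      exact h.2 d' d (by rw [he]; ring) (four_of_two2 hd' h4) c2 c1
    · exfalso
      have h5 : (d.norm * d'.norm) % 8 = 1 := by rw [Int.mul_emod, h3, h4]; norm_num
      rw [hn] at h5
      omega

/-- the tame case -/
theorem quart_of {D : ZI} {R : Finset ZI} (hR : QuartX D R) (h1 : two2 ∣ D - 1) (h2 : D.norm % 16 = 13)
    (h8 : ∀ ρ ∈ R, (8 : ZI) ∣ ρ - 1) : Quart D R := by
  have hJ : ∀ J ⊆ R, (8 : ZI) ∣ (∏ ρ ∈ J, ρ) - 1 := by
    intro J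
    induction J using Finset.induction_on with
    | empty => intro _; rw [Finset.prod_empty, sub_self]; exact dvd_zero _
    | insert a J ha ih =>
      intro hJ
      rw [Finset.prod_insert ha]
      have h3 := h8 a (hJ (Finset.mem_insert_self a J))
      have h4 := ih (fun x hx => hJ (Finset.mem_insert_of_mem hx))
      have e : a * ∏ ρ ∈ J, ρ - 1 = a * ((∏ ρ ∈ J, ρ) - 1) + (a - 1) := by ring
      rw [e]
      exact dvd_add (h4.mul_left a) h3
  refine ⟨fun J hJR => ?_, h8, fun ρ hρ π hπ hd J hJR => hR.non ρ hρ π hπ hd J hJR⟩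
  obtain ⟨c, hc⟩ := hJ J hJR
  have hc' : ∏ ρ ∈ J, ρ = 1 + 8 * c := by rw [← hc]; ring
  refine good4_of_goodx (hR.good J hJR) ?_ ?_
  · rw [hc']
    have e : D * (1 + 8 * c) - 1 = (D - 1) + 8 * (D * c) := by ring
    rw [e]
    refine dvd_add h1 (Dvd.dvd.mul_right ?_ _)
    refine ⟨⟨2, -2⟩, ?_⟩
    decide
  · have hn : (1 + 8 * c).norm = 1 + 16 * (c.re + 4 * (c.re ^ 2 + c.im ^ 2)) := by
      have e8 : (8 : ZI) = ⟨8, 0⟩ := by
        ext
        · rfl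
        · rfl
      rw [norm_def', e8]
      simp only [Zsqrtd.re_add, Zsqrtd.re_one, Zsqrtd.re_mul, Zsqrtd.im_add, Zsqrtd.im_one,
        Zsqrtd.im_mul]
      ring
    rw [hc', Zsqrtd.norm_mul, hn, Int.mul_emod, h2]
    have h3 : (1 + 16 * (c.re + 4 * (c.re ^ 2 + c.im ^ 2))) % 16 = 1 := by omega
    rw [h3]
    norm_num

theorem quad_of {D δ : ZI} {R : Finset ZI} (h : QuadX D R δ) (h1 : Squarefree δ)
    (h2 : (4 : ZI) ∣ δ - 1) : Quad D R δ :=
  ⟨h1, h2, fun π hπ hd J hJ => h.2 π hπ hd J hJ⟩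

end Pool.Agent.L7h3.QX
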